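import Pool.Agent.Y189.DC.Inv
import Pool.Agent.TH600.LK.Ell

/-!
Torus maps and entire curves given by linear functional equations: the equivalence.
-/

set_option autoImplicit false

namespace Pool.Agent.Y189.DC

open Filter Topology Set MvPolynomial
open scoped LinearAlgebra.Projectivization
open Pool.Agent.TH143.EL

variable {N : ℕ}

/-- The entire curve `f` has homogeneous coordinates which are meromorphic functions, each of them
satisfying a nontrivial linear functional equation `∑ a_k(z) h(σ^k(z)) = 0` with coefficients in a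
finitely generated field of meromorphic functions, of transcendence degree at most one, which is
closed under the composition with `σ`. Here `σ` is a nonconstant entire function, no iterate of
which is the identity. -/
def FunctionalCurve (σ : ℂ → ℂ) (f : ℂ → ℙ ℂ (Fin (N + 1) → ℂ)) : Prop :=
  NCE σ ∧ (∀ k, 0 < k → ∃ z, σ^[k] z ≠ z) ∧ ∃ U : Set (ℂ → ℂ), Base σ U ∧
    ∃ h : Fin (N + 1) → ℂ → ℂ, (∀ j, Meromorphic (h j)) ∧ (∀ j, FunEq σ U (h j)) ∧
      ∀ᶠ z in codiscrete ℂ, Rep (f z) fun j => h j z

theorem rat_dep {I I' : Ideal (MvPolynomial (Fin (N + 1)) ℂ)} (hT : TorusMapsIn I I')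
    {f : ℂ → ℙ ℂ (Fin (N + 1) → ℂ)} (hf : HolMap f) (hI : ∀ z, InV I (f z))
    (hI' : ∃ z, ¬ InV I' (f z)) (hnc : ∃ z w, f z ≠ f w)
    {h : Fin (N + 1) → ℂ → ℂ} (hm : ∀ j, Meromorphic (h j))
    (hr : ∀ᶠ z in codiscrete ℂ, Rep (f z) fun j => h j z) {b b' : ℂ} (hb : b ≠ 0)
    (h1 : ∀ z, f (z + b) = f z) (h2 : ∀ z, f (z + b') = f z) : ∃ r : ℚ, b' = r * b := by
  by_cases hind : LinearIndependent ℝ ![b, b']
  · obtain ⟨z, hz⟩ := hI'
    exact absurd (hT b b' hind f hf h1 h2 hI hnc z) hz
  · rw [LinearIndependent.pair_iff] at hind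
    push Not at hind
    obtain ⟨s, t, hst, hne⟩ := hind
    have ht : t ≠ 0 := by
      rintro rfl
      rw [zero_smul, add_zero, smul_eq_zero] at hst
      exact hne (hst.resolve_right hb) rfl
    set x : ℝ := -(s / t) with hx
    have hxb : b' = (x : ℂ) * b := by
      have ht' : (t : ℂ) ≠ 0 := by exact_mod_cast ht
      rw [Complex.real_smul, Complex.real_smul] at hst
      rw [hx]
      push_cast
      field_simp
      linear_combination hst
    by_cases hirr : Irrational x
    · exfalso
      let P : AddSubgroup ℝ :=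
        { carrier := {y | ∀ z, f (z + (y : ℂ) * b) = f z}
          add_mem' := by
            intro y y' hy hy' z
            have e1 := hy' (z + (y : ℂ) * b)
            rw [hy z] at e1
            rw [← e1]
            congr 1
            push_cast
            ring
          zero_mem' := by
            intro z
            congr 1
            push_cast
            ring
          neg_mem' := by
            intro y hy z
            have e1 := hy (z + ((-y : ℝ) : ℂ) * b)
            rw [← e1]
            congr 1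
            push_cast
            ring }
      have hP1 : (1 : ℝ) ∈ P := by
        intro z
        rw [Complex.ofReal_one, one_mul, h1]
      have hPx : x ∈ P := by
        intro z
        rw [← hxb, h2]
      have hdense : Dense (P : Set ℝ) := by
        have e1 : Dense (AddSubgroup.closure {x, 1} : Set ℝ) := by
          rw [dense_addSubgroupClosure_pair_iff, div_one]
          exact hirr
        refine e1.mono ?_
        have e2 : AddSubgroup.closure {x, 1} ≤ P := by
          rw [AddSubgroup.closure_le]
          rintro y (rfl | rfl)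
          · exact hPx
          · exact hP1
        exact e2
      have e3 : ∃ᶠ y in 𝓝 (0 : ℝ), y ∈ (P : Set ℝ) \ {0} :=
        mem_closure_iff_frequently.1 ((hdense.sdiff_singleton 0) 0)
      have e4 : ∃ᶠ z in 𝓝[≠] (0 : ℂ), f z = f 0 := by
        rw [frequently_nhdsWithin_iff]
        have e5 : Tendsto (fun y : ℝ => (y : ℂ) * b) (𝓝 0) (𝓝 0) := by
          have e6 : Continuous fun y : ℝ => (y : ℂ) * b :=
            Complex.continuous_ofReal.mul continuous_const
          have e7 := e6.tendsto 0
          simpa using e7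
        refine e5.frequently (e3.mono ?_)
        rintro y ⟨e7, e8⟩
        refine ⟨?_, ?_⟩
        · have e9 := e7 0
          rwa [zero_add] at e9
        · refine mul_ne_zero ?_ hb
          exact_mod_cast e8
      have e5 := const_of_near hf hm hr e4
      obtain ⟨z, w, hzw⟩ := hnc
      exact hzw ((e5 z).trans (e5 w).symm)
    · unfold Irrational at hirr
      rw [not_not] at hirr
      obtain ⟨r, hr⟩ := hirr
      refine ⟨r, ?_⟩
      rw [hxb, ← hr]
      push_cast
      rfl

theorem nce_add {ω : ℂ} : NCE fun z => z + ω where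
  ent := differentiable_id.add_const ω
  nc := ⟨0, 1, by simp⟩

theorem iter_add (ω : ℂ) (n : ℕ) (z : ℂ) : (fun z => z + ω)^[n] z = z + n * ω := by
  induction n generalizing z with
  | zero => simp
  | succ n ih =>
    rw [Function.iterate_succ_apply, ih]
    push_cast
    ring

theorem base_empty (σ : ℂ → ℂ) : Base σ ∅ where
  fin := Set.finite_empty
  mero := fun u hu => absurd hu (Set.notMem_empty u)
  dep := by
    intro a ha b _
    rw [Algebra.adjoin_empty] at ha
    obtain ⟨c, rfl⟩ := Algebra.mem_bot.1 ha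
    refine ⟨X 0 - C c, ?_, Eventually.of_forall fun z => ?_⟩
    · intro h0
      have h1 := congrArg (eval ![c + 1, 0]) h0
      simp at h1
    · simp only [map_sub, eval_X, eval_C]
      change c - c = 0
      rw [sub_self]
  shift := fun u hu => absurd hu (Set.notMem_empty u)

theorem periodic_curve {f : ℂ → ℙ ℂ (Fin (N + 1) → ℂ)} {ω : ℂ} (hω : ω ≠ 0)
    {h : Fin (N + 1) → ℂ → ℂ} (hm : ∀ j, Meromorphic (h j)) (hp : ∀ j z, h j (z + ω) = h j z)
    (hr : ∀ᶠ z in codiscrete ℂ, Rep (f z) fun j => h j z) :
    FunctionalCurve (fun z => z + ω) f := by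
  refine ⟨nce_add, fun k hk => ⟨0, ?_⟩, ∅, base_empty _, h, hm, fun j => ?_, hr⟩
  · rw [iter_add, zero_add]
    exact mul_ne_zero (by exact_mod_cast hk.ne') hω
  · refine ⟨1, fun k => if k = 0 then -1 else 1, fun k => ?_, ⟨1, le_rfl, ?_⟩,
      Eventually.of_forall fun z => ?_⟩
    · by_cases hk : k = 0
      · simp only [if_pos hk]
        exact Subalgebra.neg_mem _ (Subalgebra.one_mem _)
      · simp only [if_neg hk]
        exact Subalgebra.one_mem _
    · intro h0
      obtain ⟨z, hz⟩ := h0.exists
      simp at hz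
    · rw [Finset.sum_range_succ, Finset.sum_range_one]
      simp only [if_pos, if_neg one_ne_zero, Function.iterate_zero, Function.iterate_one, id]
      rw [hp]
      simp

/-- **The theorem.** -/
theorem final (I I' : Ideal (MvPolynomial (Fin (N + 1)) ℂ)) :
    TorusMapsIn I I' ↔ ∀ f : ℂ → ℙ ℂ (Fin (N + 1) → ℂ), HolMap f → (∀ z, InV I (f z)) →
      (∃ z, ¬ InV I' (f z)) → (∃ z w, f z ≠ f w) → ∃ b : ℂ, ∀ σ, FunctionalCurve σ f →
        ∃ r : ℚ, (∀ z, σ z = z + r * b) ∧ ∃ k : ℕ, 0 < k ∧ ∀ z, f (z + k * (r * b)) = f z := by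
  constructor
  · intro hT f hf hI hI' hnc
    by_cases hex : ∃ σ, FunctionalCurve σ f
    · obtain ⟨σ, hσ, hinf, U, hU, h, hm, hfe, hr⟩ := hex
      obtain ⟨b, hb, hσb, k, hk, hkb⟩ := trans_main hσ hinf hU hT hf hI hI' hnc hm hfe hr
      have hk0 : (k : ℂ) ≠ 0 := by exact_mod_cast hk.ne'
      refine ⟨b, ?_⟩
      rintro σ' ⟨hσ', hinf', U', hU', h', hm', hfe', hr'⟩
      obtain ⟨b', hb', hσb', k', hk', hkb'⟩ :=
        trans_main hσ' hinf' hU' hT hf hI hI' hnc hm' hfe' hr'
      have hk0' : (k' : ℂ) ≠ 0 := by exact_mod_cast hk'.ne'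
      obtain ⟨r, hr''⟩ := rat_dep hT hf hI hI' hnc hm hr (mul_ne_zero hk0 hb) hkb hkb'
      have h1 : b' = ((r * k / k' : ℚ) : ℂ) * b := by
        push_cast
        field_simp
        linear_combination hr''
      refine ⟨r * k / k', fun z => by rw [hσb', h1], k', hk', fun z => ?_⟩
      rw [← h1, hkb']
    · exact ⟨0, fun σ hσ => absurd ⟨σ, hσ⟩ hex⟩
  · intro H ω₁ ω₂ hind f hf h1 h2 hI hnc z
    by_contra hz
    obtain ⟨b, hb⟩ := H f hf hI ⟨z, hz⟩ hnc
    obtain ⟨h, hh, hr⟩ := Pool.Agent.TH600.LK.torus_coords_ell hf h1 h2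
    have hω₁ : ω₁ ≠ 0 := by
      have := hind.ne_zero 0
      simpa using this
    have hω₂ : ω₂ ≠ 0 := by
      have := hind.ne_zero 1
      simpa using this
    obtain ⟨r₁, e1, -⟩ := hb _ (periodic_curve (f := f) (h := fun j z => h z j) hω₁
      (fun j => (hh j).1) (fun j z => (hh j).2.1 z) hr)
    obtain ⟨r₂, e2, -⟩ := hb _ (periodic_curve (f := f) (h := fun j z => h z j) hω₂
      (fun j => (hh j).1) (fun j z => (hh j).2.2 z) hr)
    have e3 : ω₁ = r₁ * b := by
      have := e1 0
      simpa using this
    have e4 : ω₂ = r₂ * b := by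
      have := e2 0
      simpa using this
    have e5 := (LinearIndependent.pair_iff.1 hind) (r₂ : ℝ) (-(r₁ : ℝ)) (by
      rw [Complex.real_smul, Complex.real_smul, e3, e4]
      push_cast
      ring)
    apply hω₂
    have e6 : r₂ = 0 := by exact_mod_cast e5.1
    rw [e4, e6]
    simp

end Pool.Agent.Y189.DC
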