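import Pool.Agent.TH8.QD.FunEq
import Pool.Agent.TH143.TW.Tower

/-!
Curves given by linear functional equations in projective varieties without rational curves are
algebraic over the coefficients.
-/

set_option autoImplicit false

namespace Pool.Agent.Y189.DC

open MvPolynomial Filter Topology Set
open Pool.Agent.TH143.DE (LinRec CoefField eventually_shift)
open Pool.Agent.TH143.HE (RatCurvesIn IsPtP GG gg gg_eq)
open Pool.Agent.TH143.TW (KB cK cK_surj alg_cK int_of_cf rel_of_cf)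
open Pool.Agent.TH8.QD (Stable RelCpt orb_zero fracB fracB_field linRec_of FunEq AlgQ)

variable {N : ℕ}

theorem eval_an {Ω : Set ℂ} {f : ℂ → Fin (N + 1) → ℂ}
    (hf : ∀ j, AnalyticOnNhd ℂ (fun z => f z j) Ω) (G : MvPolynomial (Fin (N + 1)) ℂ) :
    AnalyticOnNhd ℂ (fun x => eval (f x) G) Ω := by
  induction G using MvPolynomial.induction_on with
  | C a => simpa using analyticOnNhd_const
  | add p q hp hq => simp only [map_add]; exact hp.add hq
  | mul_X p j hp => simp only [map_mul, eval_X]; exact hp.mul (hf j)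

theorem iter_an {Ω : Set ℂ} {σ : ℂ → ℂ} (hσa : AnalyticOnNhd ℂ σ Ω) (hσm : MapsTo σ Ω Ω)
    (s : ℕ) : AnalyticOnNhd ℂ (σ^[s]) Ω := by
  induction s with
  | zero => exact analyticOnNhd_id
  | succ s ih =>
    intro x hx
    rw [Function.iterate_succ']
    exact AnalyticAt.comp (hσa _ (hσm.iterate s hx)) (ih x hx)

/-- **The curves given by functional equations are algebraic over the coefficients.** -/
theorem alg_main {Ω : Set ℂ} (hΩ : IsPreconnected Ω) {σ : ℂ → ℂ} (hσa : AnalyticOnNhd ℂ σ Ω)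
    (hσm : MapsTo σ Ω Ω) {S : Subalgebra ℂ (ℂ → ℂ)} (hS : Stable Ω σ S) {z : ℕ → ℂ}
    (hz : RelCpt Ω z) (hσ : ∀ m, z (m + 1) = σ (z m))
    {I I' : Ideal (MvPolynomial (Fin (N + 1)) ℂ)} (hR : RatCurvesIn (RingHom.id ℂ) I I')
    {f : ℂ → Fin (N + 1) → ℂ} (hf : ∀ j, AnalyticOnNhd ℂ (fun z => f z j) Ω)
    (hI : ∀ z ∈ Ω, ∀ G ∈ I, (∃ d, G.IsHomogeneous d) → eval (f z) G = 0)
    (hI' : ∃ z ∈ Ω, ∃ G ∈ I', (∃ d, G.IsHomogeneous d) ∧ eval (f z) G ≠ 0)
    (hfe : ∀ j, FunEq Ω σ S (fun z => f z j)) {k : Fin (N + 1)} (hk : ∃ z ∈ Ω, f z k ≠ 0) :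
    ∃ t : ℕ, ∀ j, AlgQ Ω S (fun x => f (σ^[t] x) j) (fun x => f (σ^[t] x) k) := by
  classical
  have hzΩ : ∀ m, z m ∈ Ω := fun m => by
    obtain ⟨-, C, h1, -, h2⟩ := hz
    exact h1 (h2 m)
  have hzs : ∀ m k, z (m + k) = σ^[k] (z m) := by
    intro m k
    induction k with
    | zero => rfl
    | succ k ih => rw [← add_assoc, hσ, ih, Function.iterate_succ_apply']
  have hev : ∀ {v : ℂ → ℂ}, AnalyticOnNhd ℂ v Ω → (∃ x ∈ Ω, v x ≠ 0) → ∀ᶠ m : ℕ in atTop,
      v (z m) ≠ 0 := by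
    intro v hv hv0
    by_contra h1
    obtain ⟨x, hx, hx0⟩ := hv0
    refine hx0 (orb_zero hΩ hz hv ?_ x hx)
    rw [not_eventually] at h1
    exact h1.mono fun m hm => by push Not at hm; exact hm
  have hB : CoefField (fracB S z) := fracB_field hΩ hS hz hσ
  set x : ℕ → Fin (N + 1) → ℂ := fun m => f (z m) with hx
  have hlin : ∀ j, LinRec (fracB S z) (fun m => x m j) := by
    intro j
    obtain ⟨r, a, ha, h0, h⟩ := hfe j
    exact linRec_of (g := fun z => f z j) hΩ hS hz hσ r a ha h0 h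
  have hxk : ∀ᶠ m in atTop, x m k ≠ 0 := hev (hf k) hk
  have hX : ∀ᶠ m in atTop, IsPtP (RingHom.id ℂ) I (x m) := by
    refine Eventually.of_forall fun m G hG hGh => ?_
    rw [eval₂_id]
    exact hI _ (hzΩ m) G hG hGh
  have hZ : ∀ᶠ m in atTop, ¬ IsPtP (RingHom.id ℂ) I' (x m) := by
    obtain ⟨z1, hz1, G, hG, hGh, hG0⟩ := hI'
    filter_upwards [hev (eval_an hf G) ⟨z1, hz1, hG0⟩] with m hm h
    apply hm
    have := h G hG hGh
    rwa [eval₂_id] at this
  let s : Set (MvPolynomial (Fin (N + 1)) ℂ) := {G | G ∈ I ∧ ∃ d, G.IsHomogeneous d}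
  obtain ⟨t, ht⟩ := Pool.Agent.TH143.HE.exists_rc hB hlin (isHomogeneous_X ℂ k)
    (by simpa only [eval_X] using hxk) (s := s)
    (by
      rintro G ⟨-, h⟩
      exact h)
    (by
      rintro G ⟨hG, hGh⟩
      filter_upwards [hX] with m hm
      have := hm G hG hGh
      rwa [eval₂_id] at this)
  refine ⟨t, fun j => ?_⟩
  have hint : IsIntegral (KB (fracB S z) hB) (gg fun m => x (m + t) j / x (m + t) k) := by
    refine int_of_cf hB fun J hJ hJp => ?_
    have hdom : IsDomain ((ℕ → ℂ) ⧸ J) := Ideal.Quotient.isDomain J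
    apply rel_of_cf hB hJ hJp (FractionRing ((ℕ → ℂ) ⧸ J))
    by_contra hcon
    obtain ⟨m, ⟨p, h1, h2, h3⟩, h6⟩ :=
      ((ht J hJ hJp (FractionRing ((ℕ → ℂ) ⧸ J)) j (by
        simp only [eval_X]
        exact hcon)).and_eventually
        (eventually_shift hZ t)).exists
    apply h6
    rw [← h2]
    refine hR p (fun u G hG hGf => ?_) h3 1
    have h4 := h1 G ⟨hG, hGf⟩
    have h5 := congrArg (Polynomial.eval u) h4
    rw [Polynomial.eval_zero, Pool.Agent.TH143.HE.eval_aeval] at h5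
    rw [eval₂_id]
    exact h5
  obtain ⟨P, hPm, hP⟩ := hint
  choose b hb using fun i => cK_surj hB (P.coeff i)
  set D := P.natDegree with hD
  have hrel : ∀ᶠ m in atTop, ∑ i ∈ Finset.range (D + 1), (b i : ℕ → ℂ) m *
      (x (m + t) j / x (m + t) k) ^ i = 0 := by
    rw [Polynomial.eval₂_eq_sum_range] at hP
    have h1 : ∑ i ∈ Finset.range (P.natDegree + 1), algebraMap (KB (fracB S z) hB) GG (P.coeff i) *
        (gg fun m => x (m + t) j / x (m + t) k) ^ i = gg (∑ i ∈ Finset.range (D + 1),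
          (b i : ℕ → ℂ) * (fun m => x (m + t) j / x (m + t) k) ^ i) := by
      rw [map_sum]
      refine Finset.sum_congr rfl fun i _ => ?_
      rw [map_mul, map_pow, ← hb, alg_cK]
    rw [h1, ← map_zero gg, gg_eq] at hP
    filter_upwards [hP] with m hm
    rw [Finset.sum_apply] at hm
    exact hm
  have hbD : ∀ᶠ m in atTop, (b D : ℕ → ℂ) m = 1 := by
    have h1 : cK hB (b D) = 1 := by
      rw [hb, hD]
      exact hPm
    have h2 : gg (b D : ℕ → ℂ) = gg 1 := by
      rw [← alg_cK hB, h1, map_one, map_one]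
    rw [gg_eq] at h2
    exact h2
  choose α hα β hβ hβ0 hbe using fun i => (b i).2
  set c : ℕ → ℂ → ℂ := fun i => α i * ∏ l ∈ (Finset.range (D + 1)).erase i, β l with hc
  have hcS : ∀ i, c i ∈ S := fun i => S.mul_mem (hα i) (S.prod_mem fun l _ => hβ l)
  have hce : ∀ i x, c i x = α i x * ∏ l ∈ (Finset.range (D + 1)).erase i, β l x := by
    intro i x
    rw [hc]
    simp only [Pi.mul_apply, Finset.prod_apply]
  have hβall : ∀ᶠ m : ℕ in atTop, ∀ i ∈ Finset.range (D + 1), β i (z m) ≠ 0 := by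
    rw [Filter.eventually_all_finset]
    intro i _
    exact hβ0 i
  have hball : ∀ᶠ m : ℕ in atTop, ∀ i ∈ Finset.range (D + 1),
      (b i : ℕ → ℂ) m = α i (z m) / β i (z m) := by
    rw [Filter.eventually_all_finset]
    intro i _
    exact hbe i
  have hft : ∀ j, AnalyticOnNhd ℂ (fun x => f (σ^[t] x) j) Ω := fun j x hx =>
    AnalyticAt.comp (g := fun x => f x j) (f := σ^[t]) (hf j _ (hσm.iterate t hx))
      (iter_an hσa hσm t x hx)
  refine ⟨D, c, hcS, ⟨D, le_rfl, ?_⟩, ?_⟩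
  · by_contra hcon
    push Not at hcon
    obtain ⟨m, e1, e2, e3⟩ := (hbD.and (hβall.and hball)).exists
    have hDr : D ∈ Finset.range (D + 1) := Finset.mem_range.2 (Nat.lt_succ_self D)
    have h4 := hcon (z m) (hzΩ m)
    rw [hce] at h4
    have h5 : ∏ l ∈ (Finset.range (D + 1)).erase D, β l (z m) ≠ 0 :=
      Finset.prod_ne_zero_iff.2 fun l hl => e2 l (Finset.mem_of_mem_erase hl)
    have h6 := e3 D hDr
    rw [e1, (mul_eq_zero.1 h4).resolve_right h5, zero_div] at h6
    exact one_ne_zero h6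
  · have hv : AnalyticOnNhd ℂ (fun x => ∑ i ∈ Finset.range (D + 1), c i x *
        f (σ^[t] x) j ^ i * f (σ^[t] x) k ^ (D - i)) Ω := by
      intro x hx
      exact Finset.analyticAt_fun_sum _ fun i _ =>
        ((hS.an _ (hcS i) x hx).fun_mul ((hft j x hx).fun_pow i)).fun_mul
          ((hft k x hx).fun_pow (D - i))
    refine orb_zero hΩ hz hv (Eventually.frequently ?_)
    filter_upwards [hrel, hβall, hball, eventually_shift hxk t] with m h1 h2 h3 h4
    rw [← hzs m t]
    have h5 : ∑ i ∈ Finset.range (D + 1), c i (z m) * f (z (m + t)) j ^ i *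
        f (z (m + t)) k ^ (D - i) = (∏ l ∈ Finset.range (D + 1), β l (z m)) *
          f (z (m + t)) k ^ D * ∑ i ∈ Finset.range (D + 1), (b i : ℕ → ℂ) m *
            (x (m + t) j / x (m + t) k) ^ i := by
      rw [Finset.mul_sum]
      refine Finset.sum_congr rfl fun i hi => ?_
      rw [hce, ← Finset.mul_prod_erase _ _ hi, h3 i hi]
      have h6 := h2 i hi
      have h7 : f (z (m + t)) k ≠ 0 := h4
      have h8 : f (z (m + t)) k ^ D = f (z (m + t)) k ^ i * f (z (m + t)) k ^ (D - i) := by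
        rw [← pow_add, Nat.add_sub_cancel' (Nat.lt_succ_iff.1 (Finset.mem_range.1 hi))]
      have h10 : f (z (m + t)) k ^ i ≠ 0 := pow_ne_zero _ h7
      have h11 : (x (m + t) j / x (m + t) k) ^ i =
          f (z (m + t)) j ^ i / f (z (m + t)) k ^ i := by
        rw [div_pow]
      rw [h8, h11]
      field_simp
    rw [h5, h1, mul_zero]

end Pool.Agent.Y189.DC
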