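import Pool.Agent.Y189.DC.Gen
import Pool.Agent.TH143.GE.Tow1

/-!
Finitely generated fields of meromorphic functions of transcendence degree at most one which are
closed under the composition with an entire function; the field of sequences along an orbit.
-/

set_option autoImplicit false

namespace Pool.Agent.Y189.DC

open Filter Topology Set MvPolynomial
open scoped LinearAlgebra.Projectivization
open Pool.Agent.TH143.EL
open Pool.Agent.TH143.DE (LinRec CoefField CoefRing EZ ez)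
open Pool.Agent.TH143.TW (Good Per KB cK cK_surj cK_zero)
open Pool.Agent.TH143.GE (FinGen cA)

/-- The functions in the finite set `U` are meromorphic, and the field generated by them (and by
the constants) is closed under the composition with `σ` and is of transcendence degree at most one:
any two elements of the ring generated by them are algebraically dependent. -/
structure Base (σ : ℂ → ℂ) (U : Set (ℂ → ℂ)) : Prop where
  fin : U.Finite
  mero : ∀ u ∈ U, Meromorphic u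
  dep : ∀ a ∈ Algebra.adjoin ℂ U, ∀ b ∈ Algebra.adjoin ℂ U,
    ∃ P : MvPolynomial (Fin 2) ℂ, P ≠ 0 ∧ ∀ᶠ z in codiscrete ℂ, eval ![a z, b z] P = 0
  shift : ∀ u ∈ U, ∃ p ∈ Algebra.adjoin ℂ U, ∃ q ∈ Algebra.adjoin ℂ U,
    (¬ ∀ᶠ z in codiscrete ℂ, q z = 0) ∧ ∀ᶠ z in codiscrete ℂ, q z * u (σ z) = p z

variable {σ : ℂ → ℂ} {U : Set (ℂ → ℂ)}

/-- the functions analytic at a point -/
def AnS (z : ℂ) : Subalgebra ℂ (ℂ → ℂ) where
  carrier := {f | AnalyticAt ℂ f z}
  mul_mem' := fun hf hg => AnalyticAt.mul hf hg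
  add_mem' := fun hf hg => AnalyticAt.add hf hg
  algebraMap_mem' := fun c => (analyticAt_const : AnalyticAt ℂ (fun _ => c) z)

theorem adj_mero (h : ∀ u ∈ U, Meromorphic u) {a : ℂ → ℂ} (ha : a ∈ Algebra.adjoin ℂ U) :
    Meromorphic a :=
  (Algebra.adjoin_le (S := MerS) fun u hu => h u hu) ha

theorem adj_an {z : ℂ} (h : ∀ u ∈ U, AnalyticAt ℂ u z) {a : ℂ → ℂ}
    (ha : a ∈ Algebra.adjoin ℂ U) : AnalyticAt ℂ a z :=
  (Algebra.adjoin_le (S := AnS z) fun u hu => h u hu) ha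

theorem adj_val {z : ℂ} (h : ∀ u ∈ U, AnalyticAt ℂ u z) {a : ℂ → ℂ}
    (ha : a ∈ Algebra.adjoin ℂ U) (h0 : ∀ᶠ z in codiscrete ℂ, a z = 0) : a z = 0 :=
  eq_of_codis (f := a) (g := fun _ => 0) h0 (adj_an h ha).continuousAt continuousAt_const

theorem aeval_pt {n : ℕ} (v : Fin n → ℂ → ℂ) (P : MvPolynomial (Fin n) ℂ) (z : ℂ) :
    (aeval v P : ℂ → ℂ) z = eval (fun i => v i z) P := by
  have h := MvPolynomial.comp_aeval_apply (f := v) (Pi.evalAlgHom ℂ (fun _ : ℂ => ℂ) z) P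
  change (aeval v P : ℂ → ℂ) z = _ at h
  rw [h]
  rfl

theorem aeval_mem {n : ℕ} {v : Fin n → ℂ → ℂ} (hv : ∀ i, v i ∈ Algebra.adjoin ℂ U)
    (P : MvPolynomial (Fin n) ℂ) : (aeval v P : ℂ → ℂ) ∈ Algebra.adjoin ℂ U := by
  induction P using MvPolynomial.induction_on with
  | C a => rw [aeval_C]; exact Subalgebra.algebraMap_mem _ a
  | add p q hp hq => rw [map_add]; exact Subalgebra.add_mem _ hp hq
  | mul_X p j hp => rw [map_mul, aeval_X]; exact Subalgebra.mul_mem _ hp (hv j)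

theorem vec2 {a b : ℂ → ℂ} (z : ℂ) : (fun i => ![a, b] i z) = ![a z, b z] := by
  funext i
  fin_cases i <;> rfl

/-- The values of `u` at the zeros of `p` are among the roots of a polynomial. -/
theorem exists_root (hU : Base σ U) {u p : ℂ → ℂ} (hu : u ∈ Algebra.adjoin ℂ U)
    (hp : p ∈ Algebra.adjoin ℂ U) (hp0 : ¬ ∀ᶠ z in codiscrete ℂ, p z = 0) :
    ∃ T : Set ℂ, T.Finite ∧ ∀ z, (∀ u ∈ U, AnalyticAt ℂ u z) → p z = 0 → u z ∈ T := by
  obtain ⟨P, hP0, hP⟩ := hU.dep p hp u hu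
  set Q := finSuccEquiv ℂ 1 P with hQ
  have hQ0 : Q ≠ 0 := by
    intro h
    apply hP0
    exact (map_eq_zero_iff (finSuccEquiv ℂ 1) (finSuccEquiv ℂ 1).injective).1 h
  obtain ⟨Q', hQ'⟩ : Polynomial.X ^ Q.natTrailingDegree ∣ Q :=
    Polynomial.X_pow_dvd_iff.2 fun d hd => Polynomial.coeff_eq_zero_of_lt_natTrailingDegree hd
  have hc : Q'.coeff 0 ≠ 0 := by
    have h1 : Q.coeff Q.natTrailingDegree = Q'.coeff 0 := by
      have h2 := Polynomial.coeff_X_pow_mul Q' Q.natTrailingDegree 0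
      rwa [zero_add, ← hQ'] at h2
    rw [← h1]
    exact Polynomial.trailingCoeff_nonzero_iff_nonzero.2 hQ0
  set P' := (finSuccEquiv ℂ 1).symm Q' with hP'
  have hev : ∀ (R : MvPolynomial (Fin 2) ℂ) (x y : ℂ), eval ![x, y] R =
      Polynomial.eval x (Polynomial.map (eval fun _ : Fin 1 => y) (finSuccEquiv ℂ 1 R)) := by
    intro R x y
    have h1 : (![x, y] : Fin 2 → ℂ) = Fin.cons x (fun _ : Fin 1 => y) := by
      funext i
      fin_cases i <;> rfl
    rw [h1]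
    exact eval_eq_eval_mv_eval' _ _ _
  have h1 : ∀ᶠ z in codiscrete ℂ, (aeval ![p, u] P' : ℂ → ℂ) z = 0 := by
    filter_upwards [hP, mero_ne (adj_mero hU.mero hp) hp0] with z hz hz0
    rw [aeval_pt, vec2, hev, hP', AlgEquiv.apply_symm_apply]
    rw [hev, ← hQ, hQ', Polynomial.map_mul, Polynomial.eval_mul, Polynomial.map_pow,
      Polynomial.map_X, Polynomial.eval_pow, Polynomial.eval_X] at hz
    exact (mul_eq_zero.1 hz).resolve_left (pow_ne_zero _ hz0)
  have hmem : (aeval ![p, u] P' : ℂ → ℂ) ∈ Algebra.adjoin ℂ U := by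
    apply aeval_mem
    intro i
    fin_cases i
    · exact hp
    · exact hu
  -- the polynomial
  set T : Polynomial ℂ := aeval (fun _ : Fin 1 => Polynomial.X) (Q'.coeff 0) with hT
  have hT0 : T ≠ 0 := by
    have hai : AlgebraicIndependent ℂ (fun _ : Fin 1 => (Polynomial.X : Polynomial ℂ)) := by
      rw [algebraicIndependent_unique_type_iff]
      exact Polynomial.transcendental_X ℂ
    intro h0
    apply hc
    exact (algebraicIndependent_iff.1 hai) _ h0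
  refine ⟨{t | T.eval t = 0}, ?_, fun z hz hpz => ?_⟩
  · refine (T.roots.toFinset.finite_toSet).subset fun t ht => ?_
    simp only [Finset.mem_coe, Multiset.mem_toFinset, Polynomial.mem_roots hT0]
    exact ht
  · have h2 := adj_val hz hmem h1
    rw [aeval_pt, vec2, hev, hP', AlgEquiv.apply_symm_apply, hpz, ← Polynomial.coeff_zero_eq_eval_zero,
      Polynomial.coeff_map] at h2
    change T.eval (u z) = 0
    rw [hT]
    have h3 := MvPolynomial.comp_aeval_apply (f := fun _ : Fin 1 => (Polynomial.X : Polynomial ℂ))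
      (Polynomial.aeval (u z)) (Q'.coeff 0)
    rw [Polynomial.coe_aeval_eq_eval] at h3
    rw [h3]
    simp only [Polynomial.eval_X]
    exact h2

/-! ### the orbit -/

/-- a generic orbit -/
structure Orb (U : Set (ℂ → ℂ)) (w : ℕ → ℂ) : Prop where
  an : ∀ m, ∀ u ∈ U, AnalyticAt ℂ u (w m)
  shift : ∀ u ∈ U, ∃ p ∈ Algebra.adjoin ℂ U, ∃ q ∈ Algebra.adjoin ℂ U,
    ∀ m, q (w m) ≠ 0 ∧ q (w m) * u (w (m + 1)) = p (w m)
  inj : ∀ m n, m < n → ∃ u ∈ U, u (w m) ≠ u (w n)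

theorem orb_gnr (hσ : NCE σ) (hU : Base σ U)
    (hinf : ∀ d, 0 < d → ∃ u ∈ U, ¬ ∀ᶠ z in codiscrete ℂ, u (σ^[d] z) = u z) :
    Gnr fun z => Orb U fun m => σ^[m] z := by
  have h1 : Gnr fun z => ∀ u ∈ U, ∀ m : ℕ, AnalyticAt ℂ u (σ^[m] z) :=
    Gnr.finite hU.fin fun u hu => gnr_orbit hσ (mero_an (hU.mero u hu))
  have h2 : Gnr fun z => ∀ u ∈ U, ∃ p ∈ Algebra.adjoin ℂ U, ∃ q ∈ Algebra.adjoin ℂ U,
      ∀ m : ℕ, q (σ^[m] z) ≠ 0 ∧ q (σ^[m] z) * u (σ^[m + 1] z) = p (σ^[m] z) := by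
    refine Gnr.finite hU.fin fun u hu => ?_
    obtain ⟨p, hp, q, hq, hq0, h⟩ := hU.shift u hu
    refine (gnr_orbit hσ ((mero_ne (adj_mero hU.mero hq) hq0).and h)).mono fun z hz =>
      ⟨p, hp, q, hq, fun m => ?_⟩
    rw [Function.iterate_succ_apply']
    exact hz m
  have h3 : Gnr fun z => ∀ (m : ℕ) (d : ℕ), 0 < d → ∃ u ∈ U, u (σ^[m] z) ≠ u (σ^[d + m] z) := by
    refine Gnr.all fun m => Gnr.all fun d => ?_
    by_cases hd : 0 < d
    · obtain ⟨u, hu, hne⟩ := hinf d hd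
      have hm : Meromorphic (fun z => u (σ^[d] z) - u z) :=
        ((hσ.iter d).mero (hU.mero u hu)).sub (hU.mero u hu)
      have h4 := mero_ne hm (fun h => hne (h.mono fun z hz => sub_eq_zero.1 hz))
      refine (Gnr.of_codis ((hσ.iter m).pull h4)).mono fun z hz _ => ⟨u, hu, fun h5 => hz ?_⟩
      rw [sub_eq_zero, h5, Function.iterate_add_apply]
    · exact (Gnr.of_codis (Eventually.of_forall fun z => trivial)).mono fun z _ h => absurd h hd
  refine ((h1.and h2).and h3).mono fun z hz => ⟨fun m u hu => hz.1.1 u hu m, hz.1.2,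
    fun m n hmn => ?_⟩
  obtain ⟨u, hu, h4⟩ := hz.2 m (n - m) (by omega)
  refine ⟨u, hu, ?_⟩
  rwa [Nat.sub_add_cancel hmn.le] at h4

variable {w : ℕ → ℂ}

/-- the ring of the sequences along the orbit -/
def BB (U : Set (ℂ → ℂ)) (w : ℕ → ℂ) : Subalgebra ℂ (ℕ → ℂ) where
  carrier := {s | ∃ p ∈ Algebra.adjoin ℂ U, ∃ q ∈ Algebra.adjoin ℂ U,
    (∀ᶠ m in atTop, q (w m) ≠ 0) ∧ ∀ᶠ m in atTop, s m * q (w m) = p (w m)}
  mul_mem' := by
    rintro s s' ⟨p, hp, q, hq, h1, h2⟩ ⟨p', hp', q', hq', h1', h2'⟩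
    refine ⟨p * p', Subalgebra.mul_mem _ hp hp', q * q', Subalgebra.mul_mem _ hq hq', ?_, ?_⟩
    · filter_upwards [h1, h1'] with m h3 h4
      exact mul_ne_zero h3 h4
    · filter_upwards [h2, h2'] with m h3 h4
      simp only [Pi.mul_apply]
      rw [← h3, ← h4]
      ring
  add_mem' := by
    rintro s s' ⟨p, hp, q, hq, h1, h2⟩ ⟨p', hp', q', hq', h1', h2'⟩
    refine ⟨p * q' + p' * q, Subalgebra.add_mem _ (Subalgebra.mul_mem _ hp hq')
      (Subalgebra.mul_mem _ hp' hq), q * q', Subalgebra.mul_mem _ hq hq', ?_, ?_⟩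
    · filter_upwards [h1, h1'] with m h3 h4
      exact mul_ne_zero h3 h4
    · filter_upwards [h2, h2'] with m h3 h4
      simp only [Pi.mul_apply, Pi.add_apply]
      rw [← h3, ← h4]
      ring
  algebraMap_mem' := fun c => ⟨algebraMap ℂ _ c, Subalgebra.algebraMap_mem _ c, 1,
    Subalgebra.one_mem _, Eventually.of_forall fun m => one_ne_zero,
    Eventually.of_forall fun m => by
      change c * (1 : ℂ) = c
      rw [mul_one]⟩

theorem mem_BB {s : ℕ → ℂ} : s ∈ BB U w ↔ ∃ p ∈ Algebra.adjoin ℂ U,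
    ∃ q ∈ Algebra.adjoin ℂ U, (∀ᶠ m in atTop, q (w m) ≠ 0) ∧
      ∀ᶠ m in atTop, s m * q (w m) = p (w m) := Iff.rfl

theorem BB_of {p : ℂ → ℂ} (hp : p ∈ Algebra.adjoin ℂ U) : (fun m => p (w m)) ∈ BB U w :=
  ⟨p, hp, 1, Subalgebra.one_mem _, Eventually.of_forall fun m => one_ne_zero,
    Eventually.of_forall fun m => by
      change p (w m) * (1 : ℂ) = p (w m)
      rw [mul_one]⟩

theorem Orb.shiftA (h : Orb U w) {p : ℂ → ℂ} (hp : p ∈ Algebra.adjoin ℂ U) :
    ∃ P ∈ Algebra.adjoin ℂ U, ∃ Q ∈ Algebra.adjoin ℂ U,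
      ∀ m, Q (w m) ≠ 0 ∧ Q (w m) * p (w (m + 1)) = P (w m) := by
  induction hp using Algebra.adjoin_induction with
  | mem u hu => exact h.shift u hu
  | algebraMap c =>
    refine ⟨algebraMap ℂ _ c, Subalgebra.algebraMap_mem _ c, 1, Subalgebra.one_mem _, fun m =>
      ⟨one_ne_zero, ?_⟩⟩
    change (1 : ℂ) * c = c
    rw [one_mul]
  | add p p' _ _ hp hp' =>
    obtain ⟨P, hP, Q, hQ, h1⟩ := hp
    obtain ⟨P', hP', Q', hQ', h2⟩ := hp'
    refine ⟨P * Q' + P' * Q, Subalgebra.add_mem _ (Subalgebra.mul_mem _ hP hQ')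
      (Subalgebra.mul_mem _ hP' hQ), Q * Q', Subalgebra.mul_mem _ hQ hQ', fun m =>
      ⟨mul_ne_zero (h1 m).1 (h2 m).1, ?_⟩⟩
    simp only [Pi.mul_apply, Pi.add_apply]
    rw [← (h1 m).2, ← (h2 m).2]
    ring
  | mul p p' _ _ hp hp' =>
    obtain ⟨P, hP, Q, hQ, h1⟩ := hp
    obtain ⟨P', hP', Q', hQ', h2⟩ := hp'
    refine ⟨P * P', Subalgebra.mul_mem _ hP hP', Q * Q', Subalgebra.mul_mem _ hQ hQ', fun m =>
      ⟨mul_ne_zero (h1 m).1 (h2 m).1, ?_⟩⟩
    simp only [Pi.mul_apply]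
    rw [← (h1 m).2, ← (h2 m).2]
    ring

theorem Orb.ne (h : Orb U w) (hU : Base σ U) {p : ℂ → ℂ} (hp : p ∈ Algebra.adjoin ℂ U)
    (hp0 : ¬ ∀ᶠ z in codiscrete ℂ, p z = 0) : ∀ᶠ m in atTop, p (w m) ≠ 0 := by
  classical
  choose! T hT hTz using fun (u : ℂ → ℂ) (hu : u ∈ U) =>
    exists_root hU (Algebra.subset_adjoin hu) hp hp0
  have hfin : {m | p (w m) = 0}.Finite := by
    have : Finite U := hU.fin
    have h1 : (Set.pi univ fun u : U => T u).Finite := Set.Finite.pi fun u => hT u u.2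
    refine Set.Finite.of_finite_image (f := fun m (u : U) => (u : ℂ → ℂ) (w m))
      (h1.subset ?_) ?_
    · rintro _ ⟨m, hm, rfl⟩ u _
      exact hTz u u.2 (w m) (h.an m) hm
    · intro m _ n _ hmn
      by_contra hne
      rcases lt_or_gt_of_ne hne with h2 | h2
      · obtain ⟨u, hu, h3⟩ := h.inj m n h2
        exact h3 (congrFun hmn ⟨u, hu⟩)
      · obtain ⟨u, hu, h3⟩ := h.inj n m h2
        exact h3 (congrFun hmn ⟨u, hu⟩).symm
  have h2 := hfin.compl_mem_cofinite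
  rw [Nat.cofinite_eq_atTop] at h2
  exact h2

theorem Orb.dich (h : Orb U w) (hU : Base σ U) {p : ℂ → ℂ} (hp : p ∈ Algebra.adjoin ℂ U) :
    (∀ m, p (w m) = 0) ∨ ∀ᶠ m in atTop, p (w m) ≠ 0 := by
  by_cases hp0 : ∀ᶠ z in codiscrete ℂ, p z = 0
  · left
    intro m
    exact adj_val (h.an m) hp hp0
  · exact Or.inr (h.ne hU hp hp0)

theorem Orb.field (h : Orb U w) (hU : Base σ U) : CoefField (BB U w) := by
  refine ⟨⟨?_, ?_⟩, ?_⟩
  · rintro s ⟨p, hp, q, hq, h1, h2⟩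
    obtain ⟨P, hP, Q, hQ, h3⟩ := h.shiftA hp
    obtain ⟨P', hP', Q', hQ', h4⟩ := h.shiftA hq
    refine ⟨P * Q', Subalgebra.mul_mem _ hP hQ', P' * Q, Subalgebra.mul_mem _ hP' hQ, ?_, ?_⟩
    · filter_upwards [Pool.Agent.TH143.DE.eventually_shift h1 1] with m h5
      simp only [Pi.mul_apply]
      rw [← (h4 m).2]
      exact mul_ne_zero (mul_ne_zero (h4 m).1 h5) (h3 m).1
    · filter_upwards [Pool.Agent.TH143.DE.eventually_shift h2 1] with m h5
      simp only [Pi.mul_apply]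
      rw [← (h4 m).2, ← (h3 m).2, ← h5]
      ring
  · rintro s ⟨p, hp, q, hq, h1, h2⟩
    rcases h.dich hU hp with h3 | h3
    · left
      filter_upwards [h1, h2] with m h4 h5
      rw [h3 m] at h5
      exact (mul_eq_zero.1 h5).resolve_right h4
    · right
      filter_upwards [h2, h3] with m h4 h5 h6
      rw [h6, zero_mul] at h4
      exact h5 h4.symm
  · rintro s ⟨p, hp, q, hq, h1, h2⟩
    rcases h.dich hU hp with h3 | h3
    · refine ⟨0, Subalgebra.zero_mem _, 1, Subalgebra.one_mem _,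
        Eventually.of_forall fun m => one_ne_zero, ?_⟩
      filter_upwards [h1, h2] with m h4 h5
      rw [h3 m] at h5
      have h6 := (mul_eq_zero.1 h5).resolve_right h4
      simp [h6]
    · refine ⟨q, hq, p, hp, h3, ?_⟩
      filter_upwards [h1, h2, h3] with m h4 h5 h6
      have h7 : s m ≠ 0 := by
        intro h8
        rw [h8, zero_mul] at h5
        exact h6 h5.symm
      rw [← h5, ← mul_assoc, inv_mul_cancel₀ h7, one_mul]

/-- the sequences along the orbit -/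
def evw (w : ℕ → ℂ) : (ℂ → ℂ) →ₐ[ℂ] (ℕ → ℂ) where
  toFun := fun f m => f (w m)
  map_one' := rfl
  map_mul' := fun _ _ => rfl
  map_zero' := rfl
  map_add' := fun _ _ => rfl
  commutes' := fun _ => rfl

theorem evw_mem {p : ℂ → ℂ} (hp : p ∈ Algebra.adjoin ℂ U) :
    (fun m => p (w m)) ∈ Algebra.adjoin ℂ ((fun (u : ℂ → ℂ) (m : ℕ) => u (w m)) '' U) := by
  have h1 := AlgHom.map_adjoin (evw w) U
  have h2 : evw w p ∈ (Algebra.adjoin ℂ U).map (evw w) := ⟨p, hp, rfl⟩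
  rw [h1] at h2
  exact h2

theorem Orb.finGen (hU : Base σ U) : FinGen (BB U w) := by
  refine ⟨(fun (u : ℂ → ℂ) (m : ℕ) => u (w m)) '' U, hU.fin.image _, ?_, ?_⟩
  · rintro _ ⟨u, hu, rfl⟩
    exact BB_of (Algebra.subset_adjoin hu)
  · rintro b ⟨p, hp, q, hq, h1, h2⟩
    exact ⟨_, evw_mem hp, _, evw_mem hq, h1, h2⟩

theorem trdeg_le {K : Type} [Field K] [Algebra ℂ K] (S : Set K)
    (hS : ∀ x ∈ S, ∀ y ∈ S, ∃ P : MvPolynomial (Fin 2) ℂ, P ≠ 0 ∧ aeval ![x, y] P = 0)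
    (hgen : ∀ y : K, ∃ p ∈ Algebra.adjoin ℂ S, ∃ q ∈ Algebra.adjoin ℂ S, q ≠ 0 ∧ y * q = p) :
    Algebra.trdeg ℂ K ≤ 1 := by
  have halg : Algebra.IsAlgebraic (Algebra.adjoin ℂ S) K := by
    constructor
    intro y
    obtain ⟨p, hp, q, hq, hq0, h⟩ := hgen y
    refine ⟨Polynomial.C ⟨q, hq⟩ * Polynomial.X - Polynomial.C ⟨p, hp⟩, ?_, ?_⟩
    · intro h0
      have h1 := congrArg (fun r => Polynomial.coeff r 1) h0
      simp only [Polynomial.coeff_sub, Polynomial.coeff_C_mul, Polynomial.coeff_X_one, mul_one,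
        Polynomial.coeff_C_succ, sub_zero, Polynomial.coeff_zero] at h1
      exact hq0 (congrArg Subtype.val h1)
    · rw [map_sub, map_mul, Polynomial.aeval_C, Polynomial.aeval_C, Polynomial.aeval_X]
      change q * y - p = 0
      rw [← h]
      ring
  obtain ⟨t, htS, ht⟩ := exists_isTranscendenceBasis_subset (R := ℂ) S
  rw [← ht.cardinalMk_eq_trdeg, Cardinal.mk_le_one_iff_set_subsingleton]
  intro a ha a' ha'
  by_contra hne
  obtain ⟨P, hP0, hP⟩ := hS a (htS ha) a' (htS ha')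
  let f : Fin 2 → t := ![⟨a, ha⟩, ⟨a', ha'⟩]
  have hf : Function.Injective f := by
    intro i j hij
    fin_cases i <;> fin_cases j
    · rfl
    · exact absurd (congrArg Subtype.val hij) hne
    · exact absurd (congrArg Subtype.val hij).symm hne
    · rfl
  have hai := ht.1.comp f hf
  apply hP0
  rw [algebraicIndependent_iff] at hai
  apply hai
  have h1 : ((Subtype.val : t → K) ∘ f) = ![a, a'] := by
    funext i
    fin_cases i <;> rfl
  rw [h1]
  exact hP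

end Pool.Agent.Y189.DC
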