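import Pool.Agent.Y189.DC.Gen

/-!
Holomorphic functions invariant under a holomorphic map with a fixed point.
-/

set_option autoImplicit false

namespace Pool.Agent.Y189.DC

open Filter Topology Set

/-- a local holomorphic map which is tangent to the identity and leaves a nonconstant function
invariant is the identity -/
theorem tangent_id {φ H : ℂ → ℂ} {p : ℂ} (hφ : AnalyticAt ℂ φ p)
    (hnc : ¬ ∀ᶠ z in 𝓝 p, φ z = φ p) (hH : AnalyticAt ℂ H p) (hHp : H p = p)
    (hd : deriv H p = 1) (hinv : ∀ᶠ z in 𝓝 p, φ (H z) = φ z) : ∀ᶠ z in 𝓝 p, H z = z := by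
  by_contra hcon
  -- the orders
  have h1 : ¬ ∀ᶠ z in 𝓝 p, φ z - φ p = 0 := fun h => hnc (h.mono fun z hz => sub_eq_zero.1 hz)
  obtain ⟨r, v, hv, hv0, hφv⟩ :=
    (hφ.sub analyticAt_const).exists_eventuallyEq_pow_smul_nonzero_iff.2 h1
  have h2 : ¬ ∀ᶠ z in 𝓝 p, H z - z = 0 := fun h => hcon (h.mono fun z hz => sub_eq_zero.1 hz)
  obtain ⟨s, u, hu, hu0, hHu⟩ :=
    (hH.sub analyticAt_id).exists_eventuallyEq_pow_smul_nonzero_iff.2 h2
  have hr : r ≠ 0 := by
    rintro rfl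
    have h3 := hφv.self_of_nhds
    simp only [Pi.sub_apply, sub_self, pow_zero, smul_eq_mul, one_mul] at h3
    exact hv0 h3.symm
  have hs0 : s ≠ 0 := by
    rintro rfl
    have h3 := hHu.self_of_nhds
    simp only [Pi.sub_apply, id, hHp, sub_self, pow_zero, smul_eq_mul, one_mul] at h3
    exact hu0 h3.symm
  have hs1 : s ≠ 1 := by
    rintro rfl
    have h3 : HasDerivAt (fun z => H z - z) (1 - 1) p := by
      have h4 := hH.differentiableAt.hasDerivAt
      rw [hd] at h4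
      exact h4.sub (hasDerivAt_id p)
    have h5 : HasDerivAt (fun z => (z - p) * u z) (1 * u p + (p - p) * deriv u p) p :=
      ((hasDerivAt_id p).sub_const p).mul hu.differentiableAt.hasDerivAt
    have h6 : (fun z => H z - z) =ᶠ[𝓝 p] fun z => (z - p) * u z := by
      filter_upwards [hHu] with z hz
      simp only [Pi.sub_apply, id, pow_one, smul_eq_mul] at hz
      exact hz
    have h7 := (h5.congr_of_eventuallyEq h6).unique h3
    rw [sub_self, sub_self, zero_mul, add_zero, one_mul] at h7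
    exact hu0 h7
  obtain ⟨t, rfl⟩ : ∃ t, s = t + 2 := ⟨s - 2, by omega⟩
  -- the function `T = (H z - z) / (z - p)`
  set T : ℂ → ℂ := fun z => (z - p) ^ (t + 1) * u z with hT
  have hTc : Tendsto T (𝓝[≠] p) (𝓝 0) := by
    have h3 : ContinuousAt T p :=
      ((continuousAt_id.sub continuousAt_const).pow _).mul hu.continuousAt
    have h4 : T p = 0 := by
      simp [hT]
    have h5 := h3.tendsto
    rw [h4] at h5
    exact h5.mono_left nhdsWithin_le_nhds
  set S : ℂ → ℂ := fun z => ∑ i ∈ Finset.range r, (1 + T z) ^ i with hS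
  have hSc : Tendsto S (𝓝[≠] p) (𝓝 (r : ℂ)) := by
    have h3 : Tendsto S (𝓝[≠] p) (𝓝 (∑ i ∈ Finset.range r, (1 + (0 : ℂ)) ^ i)) :=
      tendsto_finsetSum _ fun i _ => (tendsto_const_nhds.add hTc).pow i
    have h4 : ∑ i ∈ Finset.range r, (1 + (0 : ℂ)) ^ i = r := by simp
    rwa [h4] at h3
  have hHc : Tendsto H (𝓝 p) (𝓝 p) := by
    have h3 := hH.continuousAt.tendsto
    rwa [hHp] at h3
  have hvH : Tendsto (fun z => v (H z)) (𝓝[≠] p) (𝓝 (v p)) :=
    (hv.continuousAt.tendsto.comp hHc).mono_left nhdsWithin_le_nhds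
  -- Lipschitz
  obtain ⟨C, N, hN, hC⟩ : ∃ (C : ℝ) (N : Set ℂ), N ∈ 𝓝 p ∧ ∀ x ∈ N, ∀ y ∈ N,
      ‖v x - v y‖ ≤ C * ‖x - y‖ := by
    obtain ⟨K, N, hN, hK⟩ := hv.hasStrictDerivAt.hasStrictFDerivAt.exists_lipschitzOnWith
    exact ⟨K, N, hN, fun x hx y hy => hK.norm_sub_le hx hy⟩
  have key : ∀ᶠ z in 𝓝[≠] p, ‖S z‖ * ‖v (H z)‖ ≤ C * ‖z - p‖ := by
    have hN1 : ∀ᶠ z in 𝓝 p, z ∈ N := hN
    have hN2 : ∀ᶠ z in 𝓝 p, H z ∈ N := hHc.eventually hN
    have hφH := hHc.eventually hφv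
    have hu1 : ∀ᶠ z in 𝓝 p, u z ≠ 0 := hu.continuousAt.eventually_ne hu0
    filter_upwards [self_mem_nhdsWithin, hN1.filter_mono nhdsWithin_le_nhds,
      hN2.filter_mono nhdsWithin_le_nhds, hφH.filter_mono nhdsWithin_le_nhds,
      hφv.filter_mono nhdsWithin_le_nhds, hHu.filter_mono nhdsWithin_le_nhds,
      hinv.filter_mono nhdsWithin_le_nhds, hu1.filter_mono nhdsWithin_le_nhds]
      with z hzp e1 e2 e3 e4 e5 e6 e7
    have hzp' : z - p ≠ 0 := sub_ne_zero.2 hzp
    simp only [Pi.sub_apply, id, smul_eq_mul] at e3 e4 e5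
    have h3 : H z - z = (z - p) * T z := by
      rw [e5, hT]
      ring
    have h4 : H z - p = (z - p) * (1 + T z) := by
      linear_combination h3
    have hT0 : T z ≠ 0 := mul_ne_zero (pow_ne_zero _ hzp') e7
    have h5 : (1 + T z) ^ r * v (H z) = v z := by
      apply mul_left_cancel₀ (pow_ne_zero r hzp')
      rw [← e4, ← e6, e3, h4, mul_pow]
      ring
    have h6 : S z * T z = (1 + T z) ^ r - 1 := by
      have := geom_sum_mul (1 + T z) r
      rw [add_sub_cancel_left] at this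
      exact this
    have h7 : T z * (S z * v (H z)) = -(v (H z) - v z) := by
      linear_combination v (H z) * h6 + h5
    have h8 : ‖T z‖ * (‖S z‖ * ‖v (H z)‖) = ‖v (H z) - v z‖ := by
      rw [← norm_mul, ← norm_mul, h7, norm_neg]
    have h9 := hC (H z) e2 z e1
    rw [h3, norm_mul] at h9
    have h10 : ‖T z‖ * (‖S z‖ * ‖v (H z)‖) ≤ ‖T z‖ * (C * ‖z - p‖) := by
      rw [h8]
      linarith
    exact le_of_mul_le_mul_left h10 (norm_pos_iff.2 hT0)
  have hl : Tendsto (fun z => ‖S z‖ * ‖v (H z)‖) (𝓝[≠] p) (𝓝 (‖(r : ℂ)‖ * ‖v p‖)) :=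
    hSc.norm.mul hvH.norm
  have hr' : Tendsto (fun z => C * ‖z - p‖) (𝓝[≠] p) (𝓝 (C * ‖p - p‖)) :=
    (((continuousAt_id.sub continuousAt_const).norm.tendsto.const_mul C)).mono_left
      nhdsWithin_le_nhds
  have h3 := le_of_tendsto_of_tendsto hl hr' key
  rw [sub_self, norm_zero, mul_zero] at h3
  have h4 : 0 < ‖(r : ℂ)‖ * ‖v p‖ := by
    apply mul_pos
    · rw [norm_pos_iff]
      exact_mod_cast hr
    · exact norm_pos_iff.2 hv0
  linarith

theorem iter_data {φ G : ℂ → ℂ} {p : ℂ} (hG : AnalyticAt ℂ G p) (hGp : G p = p)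
    (hinv : ∀ᶠ z in 𝓝 p, φ (G z) = φ z) (n : ℕ) :
    AnalyticAt ℂ (G^[n]) p ∧ G^[n] p = p ∧ deriv (G^[n]) p = deriv G p ^ n ∧
      ∀ᶠ z in 𝓝 p, φ (G^[n] z) = φ z := by
  induction n with
  | zero =>
    refine ⟨analyticAt_id, rfl, ?_, Eventually.of_forall fun _ => rfl⟩
    rw [Function.iterate_zero, pow_zero]
    exact deriv_id p
  | succ n ih =>
    obtain ⟨h1, h2, h3, h4⟩ := ih
    have h5 : G^[n + 1] = fun z => G (G^[n] z) := by
      funext z
      exact Function.iterate_succ_apply' G n z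
    have hG' : AnalyticAt ℂ G (G^[n] p) := by rwa [h2]
    have h6 : HasDerivAt (G^[n + 1]) (deriv G p * deriv G p ^ n) p := by
      rw [h5, ← h3]
      have h7 := hG'.differentiableAt.hasDerivAt
      have h8 := h7.comp p h1.differentiableAt.hasDerivAt
      rw [h2] at h8
      exact h8
    refine ⟨?_, ?_, ?_, ?_⟩
    · rw [h5]
      exact hG'.fun_comp h1
    · rw [h5]
      simp only [h2, hGp]
    · rw [h6.deriv, pow_succ']
    · have h9 : Tendsto (G^[n]) (𝓝 p) (𝓝 p) := by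
        have := h1.continuousAt.tendsto
        rwa [h2] at this
      filter_upwards [h9.eventually hinv, h4] with z h10 h11
      rw [Function.iterate_succ_apply', h10, h11]

/-- If a nonconstant function is invariant under a local holomorphic map with a fixed point, then
the map is of finite order. -/
theorem finite_order {φ G : ℂ → ℂ} {p : ℂ} (hφ : AnalyticAt ℂ φ p)
    (hnc : ¬ ∀ᶠ z in 𝓝 p, φ z = φ p) (hG : AnalyticAt ℂ G p) (hGp : G p = p)
    (hinv : ∀ᶠ z in 𝓝 p, φ (G z) = φ z) : ∃ r, 0 < r ∧ ∀ᶠ z in 𝓝 p, G^[r] z = z := by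
  have h1 : ¬ ∀ᶠ z in 𝓝 p, φ z - φ p = 0 := fun h => hnc (h.mono fun z hz => sub_eq_zero.1 hz)
  obtain ⟨r, v, hv, hv0, hφv⟩ :=
    (hφ.sub analyticAt_const).exists_eventuallyEq_pow_smul_nonzero_iff.2 h1
  have hr : r ≠ 0 := by
    rintro rfl
    have h3 := hφv.self_of_nhds
    simp only [Pi.sub_apply, sub_self, pow_zero, smul_eq_mul, one_mul] at h3
    exact hv0 h3.symm
  have hGc : Tendsto G (𝓝 p) (𝓝 p) := by
    have h3 := hG.continuousAt.tendsto
    rwa [hGp] at h3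
  -- the derivative is a root of unity
  have hslope : Tendsto (slope G p) (𝓝[≠] p) (𝓝 (deriv G p)) :=
    hasDerivAt_iff_tendsto_slope.1 hG.differentiableAt.hasDerivAt
  have h2 : ∀ᶠ z in 𝓝[≠] p, slope G p z ^ r * v (G z) = v z := by
    filter_upwards [self_mem_nhdsWithin, (hGc.eventually hφv).filter_mono nhdsWithin_le_nhds,
      hφv.filter_mono nhdsWithin_le_nhds, hinv.filter_mono nhdsWithin_le_nhds] with z hzp e1 e2 e3
    have hzp' : z - p ≠ 0 := sub_ne_zero.2 hzp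
    simp only [Pi.sub_apply, smul_eq_mul] at e1 e2
    apply mul_left_cancel₀ (pow_ne_zero r hzp')
    rw [← e2, ← e3, e1, slope_def_field, hGp, div_pow]
    field_simp
  have h3 : Tendsto (fun z => slope G p z ^ r * v (G z)) (𝓝[≠] p) (𝓝 (deriv G p ^ r * v p)) :=
    (hslope.pow r).mul ((hv.continuousAt.tendsto.comp hGc).mono_left nhdsWithin_le_nhds)
  have h4 : Tendsto v (𝓝[≠] p) (𝓝 (v p)) := hv.continuousAt.tendsto.mono_left nhdsWithin_le_nhds
  have h5 := tendsto_nhds_unique (h3.congr' h2) h4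
  have h6 : deriv G p ^ r = 1 := by
    apply mul_right_cancel₀ hv0
    rw [h5, one_mul]
  obtain ⟨d1, d2, d3, d4⟩ := iter_data hG hGp hinv r
  rw [h6] at d3
  exact ⟨r, Nat.pos_of_ne_zero hr, tangent_id hφ hnc d1 d2 d3 d4⟩

end Pool.Agent.Y189.DC
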