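import Pool.Agent.TH143.EL.Proj
import Pool.Agent.TH143.EL.Fld

/-!
Nonconstant entire functions, pullbacks of codiscrete sets, generic points.
-/

set_option autoImplicit false

namespace Pool.Agent.Y189.DC

open Filter Topology Set MvPolynomial
open scoped LinearAlgebra.Projectivization
open Pool.Agent.TH143.EL

/-- The function `τ` is entire and not constant. -/
structure NCE (τ : ℂ → ℂ) : Prop where
  ent : Differentiable ℂ τ
  nc : ∃ z w, τ z ≠ τ w

theorem NCE.sub_ne {τ : ℂ → ℂ} (h : NCE τ) (c : ℂ) : ∀ᶠ z in codiscrete ℂ, τ z ≠ c := by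
  have hm : Meromorphic (fun z => τ z - c) := fun z =>
    ((h.ent.analyticAt z).sub analyticAt_const).meromorphicAt
  have h1 : ¬ ∀ᶠ z in codiscrete ℂ, τ z - c = 0 := by
    intro h2
    obtain ⟨z, w, hzw⟩ := h.nc
    have h3 : ∀ x, τ x = c := fun x => eq_of_codis (f := fun z => τ z) (g := fun _ => c)
      (h2.mono fun y hy => sub_eq_zero.1 hy) (h.ent x).continuousAt continuousAt_const
    exact hzw (by rw [h3, h3])
  filter_upwards [mero_ne hm h1] with z hz
  exact sub_ne_zero.1 hz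

theorem NCE.pull {τ : ℂ → ℂ} (h : NCE τ) {p : ℂ → Prop} (hp : ∀ᶠ z in codiscrete ℂ, p z) :
    ∀ᶠ z in codiscrete ℂ, p (τ z) := by
  apply codis_of_ev
  intro x
  have h1 : Tendsto τ (𝓝[≠] x) (𝓝[≠] (τ x)) := by
    apply tendsto_nhdsWithin_of_tendsto_nhds_of_eventually_within
    · exact (h.ent.continuous.tendsto x).mono_left nhdsWithin_le_nhds
    · exact codis_ev (h.sub_ne (τ x)) x
  exact h1.eventually (codis_ev hp (τ x))

theorem NCE.comp {τ ρ : ℂ → ℂ} (h : NCE τ) (h' : NCE ρ) : NCE (fun z => τ (ρ z)) where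
  ent := h.ent.comp h'.ent
  nc := by
    by_contra hcon
    push Not at hcon
    obtain ⟨z, hz⟩ := (h'.pull (h.sub_ne (τ (ρ 0)))).exists
    exact hz (hcon z 0)

theorem NCE.iter {σ : ℂ → ℂ} (h : NCE σ) (m : ℕ) : NCE (σ^[m]) := by
  induction m with
  | zero => exact ⟨differentiable_id, 0, 1, by simp⟩
  | succ m ih =>
    have h1 := ih.comp h
    exact h1

theorem NCE.mero {τ f : ℂ → ℂ} (h : NCE τ) (hf : Meromorphic f) :
    Meromorphic (fun z => f (τ z)) := fun x =>
  (hf (τ x)).comp_analyticAt (g := τ) (h.ent.analyticAt x)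

/-- a function which vanishes along `τ` vanishes -/
theorem NCE.zero {τ D : ℂ → ℂ} (h : NCE τ) (hD : Meromorphic D)
    (h0 : ∀ᶠ z in codiscrete ℂ, D (τ z) = 0) : ∀ᶠ z in codiscrete ℂ, D z = 0 := by
  by_contra hcon
  obtain ⟨z, h1, h2⟩ := ((h.pull (mero_ne hD hcon)).and h0).exists
  exact h1 h2

/-! ### generic points -/

/-- The property holds for all complex numbers outside of a countable set. -/
def Gnr (p : ℂ → Prop) : Prop := {z | ¬ p z}.Countable

theorem Gnr.of_codis {p : ℂ → Prop} (h : ∀ᶠ z in codiscrete ℂ, p z) : Gnr p :=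
  codis_countable h

theorem Gnr.mono {p q : ℂ → Prop} (h : Gnr p) (hpq : ∀ z, p z → q z) : Gnr q :=
  Set.Countable.mono (fun z hz h1 => hz (hpq z h1)) h

theorem Gnr.all {ι : Type} [Countable ι] {p : ι → ℂ → Prop} (h : ∀ i, Gnr (p i)) :
    Gnr fun z => ∀ i, p i z := by
  have h1 : {z | ¬ ∀ i, p i z} = ⋃ i, {z | ¬ p i z} := by
    ext z
    simp
  unfold Gnr
  rw [h1]
  exact Set.countable_iUnion h

theorem Gnr.and {p q : ℂ → Prop} (h : Gnr p) (h' : Gnr q) : Gnr fun z => p z ∧ q z := by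
  have h1 : {z | ¬ (p z ∧ q z)} = {z | ¬ p z} ∪ {z | ¬ q z} := by
    ext z
    simp only [mem_ofPred_eq, mem_union]
    tauto
  unfold Gnr
  rw [h1]
  exact Set.Countable.union h h'

theorem Gnr.finite {ι : Type} {U : Set ι} (hU : U.Finite) {p : ι → ℂ → Prop}
    (h : ∀ i ∈ U, Gnr (p i)) : Gnr fun z => ∀ i ∈ U, p i z := by
  have : Countable U := hU.countable
  exact (Gnr.all (ι := U) (p := fun i z => p i z) fun i => h i i.2).mono fun z hz i hi =>
    hz ⟨i, hi⟩

theorem gnr_orbit {σ : ℂ → ℂ} (hσ : NCE σ) {p : ℂ → Prop} (h : ∀ᶠ z in codiscrete ℂ, p z) :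
    Gnr fun z => ∀ m : ℕ, p (σ^[m] z) :=
  Gnr.all fun m => Gnr.of_codis ((hσ.iter m).pull h)

theorem not_countable : ¬ (univ : Set ℂ).Countable := by
  intro h
  have h1 : (∅ : Set ℂ)ᶜ.Countable := by rwa [compl_empty]
  have h2 := Cardinal.mk_univ (α := ℂ)
  rw [← Cardinal.le_aleph0_iff_set_countable, h2, Cardinal.mk_complex] at h
  exact absurd h (not_le.2 Cardinal.aleph0_lt_continuum)

/-- Pigeonhole: one of countably many properties holds at uncountably many points. -/
theorem pigeon {ι : Type} [Countable ι] {p : ι → ℂ → Prop} (h : Gnr fun z => ∃ i, p i z) :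
    ∃ i, ¬ {z | p i z}.Countable := by
  by_contra hcon
  push Not at hcon
  apply not_countable
  have h1 : (univ : Set ℂ) = {z | ¬ ∃ i, p i z} ∪ ⋃ i, {z | p i z} := by
    ext z
    simp only [mem_univ, mem_union, mem_ofPred_eq, mem_iUnion, true_iff]
    tauto
  rw [h1]
  exact Set.Countable.union h (Set.countable_iUnion hcon)

theorem mero_zero {D : ℂ → ℂ} (hD : Meromorphic D) (h : ¬ {z | D z = 0}.Countable) :
    ∀ᶠ z in codiscrete ℂ, D z = 0 := by
  by_contra hcon
  apply h
  have h1 := codis_countable (mero_ne hD hcon)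
  refine h1.mono fun z hz => ?_
  simpa using hz

end Pool.Agent.Y189.DC
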