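import Pool.Agent.Y189.DC.Gen
import Pool.Agent.H187R3.Picard

/-!
An entire function without points of period one or two is a translation.
-/

set_option autoImplicit false

namespace Pool.Agent.Y189.DC

open Filter Topology Set

/-- a nonconstant entire function whose derivative is constant along it -/
theorem translation {σ : ℂ → ℂ} (hσ : NCE σ) (h1 : ∀ z, σ z ≠ z) (h2 : ∀ z, σ (σ z) ≠ z) :
    ∃ b, b ≠ 0 ∧ ∀ z, σ z = z + b := by
  have hd := hσ.ent
  have h0 : ∀ z, σ z - z ≠ 0 := fun z => sub_ne_zero.2 (h1 z)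
  set F : ℂ → ℂ := fun z => (σ (σ z) - z) / (σ z - z) with hF
  have hFd : Differentiable ℂ F :=
    ((hd.comp hd).sub differentiable_id).div (hd.sub differentiable_id) h0
  have hF0 : ∀ z, F z ≠ 0 := fun z => div_ne_zero (sub_ne_zero.2 (h2 z)) (h0 z)
  have hF1 : ∀ z, F z ≠ 1 := by
    intro z h
    rw [hF] at h
    simp only at h
    rw [div_eq_one_iff_eq (h0 z)] at h
    exact h1 (σ z) (by linear_combination h)
  have hFc := Pool.Agent.H187R3.little_picard hFd (a := 0) (b := 1) zero_ne_one hF0 hF1
  set c := F 0 with hc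
  have hc1 : c ≠ 1 := hF1 0
  have hc0 : c ≠ 0 := hF0 0
  have h3 : ∀ z, σ (σ z) - z = c * (σ z - z) := by
    intro z
    have h4 := hFc z 0
    rw [← hc, hF] at h4
    simp only at h4
    rwa [div_eq_iff (h0 z)] at h4
  -- differentiate
  have h5 : ∀ z, deriv σ z * (deriv σ (σ z) - c) = 1 - c := by
    intro z
    have e1 : HasDerivAt (fun z => σ (σ z) - z) (deriv σ (σ z) * deriv σ z - 1) z :=
      ((hd (σ z)).hasDerivAt.comp z (hd z).hasDerivAt).sub (hasDerivAt_id z)
    have e2 : HasDerivAt (fun z => c * (σ z - z)) (c * (deriv σ z - 1)) z :=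
      ((hd z).hasDerivAt.sub (hasDerivAt_id z)).const_mul c
    have e3 : (fun z => σ (σ z) - z) = fun z => c * (σ z - z) := funext h3
    rw [e3] at e1
    have e4 := e1.unique e2
    linear_combination e4
  have h6 : ∀ z, deriv σ z ≠ 0 := by
    intro z h7
    have := h5 z
    rw [h7, zero_mul] at this
    exact hc1 (by linear_combination this)
  have h7 : ∀ z, deriv σ (σ z) ≠ c := by
    intro z h8
    have := h5 z
    rw [h8, sub_self, mul_zero] at this
    exact hc1 (by linear_combination this)
  have hd' : Differentiable ℂ (deriv σ) := hd.deriv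
  have h8 := Pool.Agent.H187R3.little_picard (hd'.comp hd) (a := 0) (b := c) hc0.symm
    (fun z => h6 (σ z)) h7
  -- the derivative is constant
  set a := deriv σ (σ 0) with ha
  have h9 : ∀ z, deriv σ z = a := by
    intro z
    have e1 := h5 z
    have e2 : deriv σ (σ z) = a := h8 z 0
    rw [e2] at e1
    have e3 := h5 (σ z)
    have e4 : deriv σ (σ (σ z)) = a := h8 (σ z) 0
    rw [e2, e4] at e3
    have e5 : a - c ≠ 0 := by
      intro h
      rw [h, mul_zero] at e3
      exact hc1 (by linear_combination e3)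
    apply mul_right_cancel₀ e5
    rw [e1, e3]
  have h10 : ∀ z, σ z = a * z + σ 0 := by
    intro z
    have e1 : ∀ z, HasDerivAt (fun z => σ z - a * z) 0 z := by
      intro z
      have e2 := (hd z).hasDerivAt
      rw [h9] at e2
      have e3 : HasDerivAt (fun z => σ z - a * z) (a - a * 1) z :=
        e2.sub ((hasDerivAt_id z).const_mul a)
      rwa [mul_one, sub_self] at e3
    have e2 : σ z - a * z = σ 0 - a * 0 := is_const_of_deriv_eq_zero (f := fun z => σ z - a * z)
      (fun z => (e1 z).differentiableAt) (fun z => (e1 z).deriv) z 0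
    linear_combination e2
  have h11 : a = 1 := by
    by_contra hne
    have hne' : 1 - a ≠ 0 := sub_ne_zero.2 (Ne.symm hne)
    apply h1 (σ 0 / (1 - a))
    rw [h10]
    field_simp
    ring
  refine ⟨σ 0, ?_, fun z => by rw [h10, h11, one_mul]⟩
  have := h1 0
  exact this

end Pool.Agent.Y189.DC
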