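import Pool.Agent.Y189.DC.Seq
import Pool.Agent.Y189.DC.Fix
import Pool.Agent.Y189.DC.Pic
import Pool.Agent.Y719.LC.Ent

/-!
Entire curves given by linear functional equations.
-/

set_option autoImplicit false

namespace Pool.Agent.Y189.DC

open Filter Topology Set MvPolynomial
open scoped LinearAlgebra.Projectivization
open Pool.Agent.TH143.EL
open Pool.Agent.TH143.HE (RatCurvesIn IsPtP)
open Pool.Agent.TH143.TW (Per)
open Pool.Agent.TH143.GE (GenusOneIn)
open Pool.Agent.Y719.LC (cI inV_cI EllIn ell_of_ent genusOne_of_ell)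

variable {σ : ℂ → ℂ} {N : ℕ}

theorem isPtP_iff {I : Ideal (MvPolynomial (Fin (N + 1)) ℂ)} {p : ℙ ℂ (Fin (N + 1) → ℂ)}
    {v : Fin (N + 1) → ℂ} (h : Rep p v) : IsPtP (RingHom.id ℂ) I v ↔ InV I p := by
  rw [inV_iff h]
  unfold IsPtP
  simp only [eval₂_id]

theorem cI_iff {I : Ideal (MvPolynomial (Fin (N + 1)) ℂ)} {p : ℙ ℂ (Fin (N + 1) → ℂ)} :
    InV (cI (RingHom.id ℂ) I) p ↔ InV I p :=
  (inV_cI (rep_rep p)).trans (isPtP_iff (rep_rep p))

theorem genusOne_of_torus {I I' : Ideal (MvPolynomial (Fin (N + 1)) ℂ)}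
    (hT : TorusMapsIn I I') : GenusOneIn (RingHom.id ℂ) I I' := by
  apply genusOne_of_ell
  apply ell_of_ent
  rintro f hf ⟨B, hB, g, hg, hr⟩ hI hnc z
  refine cI_iff.2 (main hT hB hf (fun j => hB.mero _ (hg j)) (fun j => ?_) hr
    (fun z => cI_iff.1 (hI z)) hnc z)
  exact Pool.Agent.TH143.EL.linB_of_mem hB (hg j)

theorem HolMap.comp {f : ℂ → ℙ ℂ (Fin (N + 1) → ℂ)} (hf : HolMap f) {τ : ℂ → ℂ}
    (hτ : Differentiable ℂ τ) : HolMap fun z => f (τ z) := by
  intro a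
  obtain ⟨g, hg, hgr⟩ := hf (τ a)
  refine ⟨fun j z => g j (τ z), fun j => ?_, ?_⟩
  · exact (hg j).fun_comp (f := τ) (hτ.analyticAt a)
  · exact (hτ.continuous.tendsto a).eventually hgr

theorem holMap_ext' {f f' : ℂ → ℙ ℂ (Fin (N + 1) → ℂ)} (hf : HolMap f) (hf' : HolMap f')
    (h : ∀ᶠ z in codiscrete ℂ, f z = f' z) (z : ℂ) : f z = f' z :=
  holMap_ext hf hf' (codis_ev h z)

/-- the generic points of the curve -/
theorem pt_of {I I' : Ideal (MvPolynomial (Fin (N + 1)) ℂ)} {f : ℂ → ℙ ℂ (Fin (N + 1) → ℂ)}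
    (hf : HolMap f) (hI : ∀ z, InV I (f z)) (hI' : ∃ z, ¬ InV I' (f z))
    {h : Fin (N + 1) → ℂ → ℂ} (hm : ∀ j, Meromorphic (h j))
    (hr : ∀ᶠ z in codiscrete ℂ, Rep (f z) fun j => h j z) :
    ∀ᶠ z in codiscrete ℂ, Pt I I' fun j => h j z := by
  obtain ⟨z1, hz1⟩ := hI'
  unfold InV at hz1
  push Not at hz1
  obtain ⟨G, hG, hGh, hG0⟩ := hz1
  have h1 : ¬ ∀ᶠ z in codiscrete ℂ, eval (fun j => h j z) G = 0 := by
    intro h0
    apply hG0
    have h2 : InV (Ideal.span {G}) (f z1) := by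
      apply inV_of_punct hf
      filter_upwards [codis_ev h0 z1, codis_ev hr z1] with z e1 e2
      rw [inV_iff e2]
      intro G' hG' _
      obtain ⟨c, rfl⟩ := Ideal.mem_span_singleton'.1 hG'
      rw [map_mul, e1, mul_zero]
    exact h2 G (Ideal.mem_span_singleton_self G) hGh
  filter_upwards [hr, mero_ne (mero_eval hm G) h1] with z e1 e2
  refine ⟨e1.1, (isPtP_iff e1).2 (hI z), fun h2 => e2 ?_⟩
  have h3 := h2 G hG hGh
  rwa [eval₂_id] at h3

/-- **The invariance.** -/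
theorem inv_main {U : Set (ℂ → ℂ)} (hσ : NCE σ) (hU : Base σ U)
    {I I' : Ideal (MvPolynomial (Fin (N + 1)) ℂ)} (hT : TorusMapsIn I I')
    {f : ℂ → ℙ ℂ (Fin (N + 1) → ℂ)} (hf : HolMap f) (hI : ∀ z, InV I (f z))
    (hI' : ∃ z, ¬ InV I' (f z)) {h : Fin (N + 1) → ℂ → ℂ} (hm : ∀ j, Meromorphic (h j))
    (hfe : ∀ j, FunEq σ U (h j)) (hr : ∀ᶠ z in codiscrete ℂ, Rep (f z) fun j => h j z) :
    ∃ k, 0 < k ∧ ∀ z, f (σ^[k] z) = f z := by
  obtain ⟨d, hd, hper⟩ := per_main hσ hU (ratCurves_of_torus hT) (genusOne_of_torus hT) hm hfe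
    (pt_of hf hI hI' hm hr)
  have hρ := hσ.iter d
  have h1 : Gnr fun z => ∃ km : ℕ × ℕ, 0 < km.1 ∧ ∀ i j,
      h i ((σ^[d])^[km.2 + km.1] z) * h j ((σ^[d])^[km.2] z) =
        h j ((σ^[d])^[km.2 + km.1] z) * h i ((σ^[d])^[km.2] z) := by
    refine hper.mono ?_
    rintro z ⟨k, m0, hk, hz⟩
    exact ⟨(k, m0), hk, fun i j => hz m0 le_rfl i j⟩
  obtain ⟨⟨k, m0⟩, hkm⟩ := pigeon h1
  have hk : 0 < k := by
    by_contra hcon
    apply hkm
    refine Set.Countable.mono ?_ Set.countable_empty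
    rintro z ⟨h2, -⟩
    exact absurd h2 hcon
  refine ⟨d * k, Nat.mul_pos hd hk, ?_⟩
  have hρk := hρ.iter k
  have hD : ∀ i j, ∀ᶠ z in codiscrete ℂ, h i ((σ^[d])^[k] z) * h j z =
      h j ((σ^[d])^[k] z) * h i z := by
    intro i j
    have hDm : Meromorphic fun z => h i ((σ^[d])^[k] z) * h j z - h j ((σ^[d])^[k] z) * h i z :=
      ((hρk.mero (hm i)).mul (hm j)).sub ((hρk.mero (hm j)).mul (hm i))
    have h2 : ∀ᶠ z in codiscrete ℂ, (fun z => h i ((σ^[d])^[k] z) * h j z -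
        h j ((σ^[d])^[k] z) * h i z) ((σ^[d])^[m0] z) = 0 := by
      refine mero_zero ((hρ.iter m0).mero hDm) fun hc => hkm (hc.mono ?_)
      rintro z ⟨-, hz⟩
      change h i ((σ^[d])^[k] ((σ^[d])^[m0] z)) * h j ((σ^[d])^[m0] z) -
        h j ((σ^[d])^[k] ((σ^[d])^[m0] z)) * h i ((σ^[d])^[m0] z) = 0
      rw [← Function.iterate_add_apply, Nat.add_comm k m0, hz i j, sub_self]
    have h3 := (hρ.iter m0).zero hDm h2
    filter_upwards [h3] with z hz
    exact sub_eq_zero.1 hz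
  have h2 : ∀ᶠ z in codiscrete ℂ, f (σ^[d * k] z) = f z := by
    have h3 : ∀ᶠ z in codiscrete ℂ, ∀ i j, h i ((σ^[d])^[k] z) * h j z =
      h j ((σ^[d])^[k] z) * h i z := eventually_all.2 fun i => eventually_all.2 fun j => hD i j
    filter_upwards [h3, hr, (hσ.iter (d * k)).pull hr] with z e1 e2 e3
    refine rep_eq' e3 e2 fun i j => ?_
    rw [Function.iterate_mul]
    exact e1 i j
  exact holMap_ext' (HolMap.comp hf (hσ.iter (d * k)).ent) hf h2

/-- a curve which is constant near a point is constant -/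
theorem const_of_near {f : ℂ → ℙ ℂ (Fin (N + 1) → ℂ)} (hf : HolMap f)
    {h : Fin (N + 1) → ℂ → ℂ} (hm : ∀ j, Meromorphic (h j))
    (hr : ∀ᶠ z in codiscrete ℂ, Rep (f z) fun j => h j z) {p : ℂ} {q : ℙ ℂ (Fin (N + 1) → ℂ)}
    (hp : ∃ᶠ z in 𝓝[≠] p, f z = q) (z : ℂ) : f z = q := by
  have hc : HolMap fun _ : ℂ => q := fun a => ⟨fun j _ => q.rep j, fun j => analyticAt_const,
    Eventually.of_forall fun _ => rep_rep q⟩
  have h1 : ∀ i j, ∀ᶠ z in codiscrete ℂ, h i z * q.rep j = h j z * q.rep i := by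
    intro i j
    have hc' : ∀ c : ℂ, Meromorphic fun _ : ℂ => c := fun c => Meromorphic.const c
    apply mero_id2 ((hm i).mul (hc' _)) ((hm j).mul (hc' _)) (x := p)
    refine (hp.and_eventually (codis_ev hr p)).mono ?_
    rintro z ⟨e1, e2⟩
    rw [e1] at e2
    exact ((rep_iff e2).1 (rep_rep q)).2 i j
  apply holMap_ext' hf hc
  have h2 : ∀ᶠ z in codiscrete ℂ, ∀ i j, h i z * q.rep j = h j z * q.rep i :=
    eventually_all.2 fun i => eventually_all.2 fun j => h1 i j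
  filter_upwards [h2, hr] with z e1 e2
  exact rep_eq' e2 (rep_rep q) e1

/-- A nonconstant curve invariant under an entire function with a fixed point: the function is of
finite order. -/
theorem no_fixed {f : ℂ → ℙ ℂ (Fin (N + 1) → ℂ)} (hf : HolMap f)
    {h : Fin (N + 1) → ℂ → ℂ} (hm : ∀ j, Meromorphic (h j))
    (hr : ∀ᶠ z in codiscrete ℂ, Rep (f z) fun j => h j z) (hnc : ∃ z w, f z ≠ f w)
    {G : ℂ → ℂ} (hG : Differentiable ℂ G) (hinv : ∀ z, f (G z) = f z) {p : ℂ} (hp : G p = p) :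
    ∃ r, 0 < r ∧ ∀ z, G^[r] z = z := by
  obtain ⟨g, hg, hgr⟩ := hf p
  obtain ⟨l, hl⟩ := Function.ne_iff.1 hgr.self_of_nhds.1
  have hl' : g l p ≠ 0 := hl
  have hlz : ∀ᶠ z in 𝓝 p, g l z ≠ 0 := (hg l).continuousAt.eventually_ne hl'
  have hGc : Tendsto G (𝓝 p) (𝓝 p) := by
    have h1 := (hG.continuous.tendsto p)
    rwa [hp] at h1
  -- a nonconstant quotient
  obtain ⟨j, hj⟩ : ∃ j, ¬ ∀ᶠ z in 𝓝 p, g j z / g l z = g j p / g l p := by
    by_contra hcon
    push Not at hcon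
    have h1 : ∀ᶠ z in 𝓝 p, ∀ j, g j z / g l z = g j p / g l p := eventually_all.2 hcon
    have h2 : ∀ᶠ z in 𝓝 p, f z = f p := by
      filter_upwards [h1, hgr, hlz] with z e1 e2 e3
      refine rep_eq' e2 hgr.self_of_nhds fun i k => ?_
      have e4 := e1 i
      have e5 := e1 k
      rw [div_eq_div_iff e3 hl'] at e4 e5
      apply mul_left_cancel₀ (mul_ne_zero e3 hl')
      linear_combination (g k p * g l z) * e4 - (g i p * g l z) * e5
    obtain ⟨z, w, hzw⟩ := hnc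
    have h3 := const_of_near hf hm hr (freq_of_ev h2)
    exact hzw ((h3 z).trans (h3 w).symm)
  have hφ : AnalyticAt ℂ (fun z => g j z / g l z) p := (hg j).fun_div (hg l) hl'
  have hφinv : ∀ᶠ z in 𝓝 p, (fun z => g j z / g l z) (G z) = (fun z => g j z / g l z) z := by
    filter_upwards [hgr, hGc.eventually hgr, hlz, hGc.eventually hlz] with z e1 e2 e3 e4
    rw [hinv z] at e2
    have e5 := ((rep_iff e1).1 e2).2 j l
    rw [div_eq_div_iff e4 e3]
    linear_combination -e5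
  obtain ⟨r, hr0, hrz⟩ := finite_order hφ hj (hG.analyticAt p) hp hφinv
  refine ⟨r, hr0, ?_⟩
  have hd : Differentiable ℂ (G^[r]) := by
    have : ∀ n, Differentiable ℂ (G^[n]) := by
      intro n
      induction n with
      | zero => exact differentiable_id
      | succ n ih => exact ih.comp hG
    exact this r
  have h1 : AnalyticOnNhd ℂ (G^[r]) univ := fun z _ => hd.analyticAt z
  have h2 := h1.eq_of_eventuallyEq (g := id) (fun z _ => analyticAt_id) hrz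
  exact fun z => congrFun h2 z

/-- **The translation.** -/
theorem trans_main {U : Set (ℂ → ℂ)} (hσ : NCE σ) (hinf : ∀ k, 0 < k → ∃ z, σ^[k] z ≠ z)
    (hU : Base σ U) {I I' : Ideal (MvPolynomial (Fin (N + 1)) ℂ)} (hT : TorusMapsIn I I')
    {f : ℂ → ℙ ℂ (Fin (N + 1) → ℂ)} (hf : HolMap f) (hI : ∀ z, InV I (f z))
    (hI' : ∃ z, ¬ InV I' (f z)) (hnc : ∃ z w, f z ≠ f w)
    {h : Fin (N + 1) → ℂ → ℂ} (hm : ∀ j, Meromorphic (h j))
    (hfe : ∀ j, FunEq σ U (h j)) (hr : ∀ᶠ z in codiscrete ℂ, Rep (f z) fun j => h j z) :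
    ∃ b, b ≠ 0 ∧ (∀ z, σ z = z + b) ∧ ∃ k : ℕ, 0 < k ∧ ∀ z, f (z + k * b) = f z := by
  obtain ⟨k, hk, hinv⟩ := inv_main hσ hU hT hf hI hI' hm hfe hr
  have h2k : ∀ z, f (σ^[2 * k] z) = f z := by
    intro z
    rw [two_mul, Function.iterate_add_apply, hinv, hinv]
  have key : ∀ p, σ (σ p) = p → False := by
    intro p hp
    have h1 : σ^[2 * k] p = p := by
      rw [Function.iterate_mul]
      have h2 : σ^[2] p = p := hp
      exact Function.iterate_fixed h2 k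
    obtain ⟨r, hr0, hrz⟩ := no_fixed hf hm hr hnc (hσ.iter (2 * k)).ent h2k h1
    obtain ⟨z, hz⟩ := hinf (2 * k * r) (by positivity)
    apply hz
    rw [Function.iterate_mul]
    exact hrz z
  obtain ⟨b, hb, hσb⟩ := translation hσ (fun z hz => key z (by rw [hz, hz])) key
  refine ⟨b, hb, hσb, k, hk, fun z => ?_⟩
  have h1 : ∀ n : ℕ, ∀ z, σ^[n] z = z + n * b := by
    intro n
    induction n with
    | zero => intro z; simp
    | succ n ih =>
      intro z
      rw [Function.iterate_succ_apply, ih, hσb]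
      push_cast
      ring
  rw [← h1, hinv]

end Pool.Agent.Y189.DC
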