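import Pool.Agent.Y189.DC.Fin
import Pool.Agent.Y189.DC.AlgS
import Pool.Agent.TH8.QD.Kod

/-!
Entire curves given by linear functional equations with polynomial coefficients, in varieties
without rational curves.
-/

set_option autoImplicit false

namespace Pool.Agent.Y189.DC

open Filter Topology Set MvPolynomial
open scoped LinearAlgebra.Projectivization
open Pool.Agent.TH143.EL
open Pool.Agent.TH143.HE (RatCurvesIn IsPtP)
open Pool.Agent.TH143.TW (Per EC Tow tow_rat tow_good)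
open Pool.Agent.TH143.DE (LinRec ratB ev_ne)

variable {σ : ℂ → ℂ} {N : ℕ}

/-- from eventually periodic sequences to the invariance -/
theorem inv_of_per (hσ : NCE σ) {d : ℕ} (hd : 0 < d) {f : ℂ → ℙ ℂ (Fin (N + 1) → ℂ)}
    (hf : HolMap f) {h : Fin (N + 1) → ℂ → ℂ} (hm : ∀ j, Meromorphic (h j))
    (hr : ∀ᶠ z in codiscrete ℂ, Rep (f z) fun j => h j z)
    (hper : Gnr fun z => Per fun (m : ℕ) (j : Fin (N + 1)) => h j ((σ^[d])^[m] z)) :
    ∃ k, 0 < k ∧ ∀ z, f (σ^[k] z) = f z := by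
  have hρ := hσ.iter d
  have h1 : Gnr fun z => ∃ km : ℕ × ℕ, 0 < km.1 ∧ ∀ i j,
      h i ((σ^[d])^[km.2 + km.1] z) * h j ((σ^[d])^[km.2] z) =
        h j ((σ^[d])^[km.2 + km.1] z) * h i ((σ^[d])^[km.2] z) := by
    refine hper.mono ?_
    rintro z ⟨k, m0, hk, hz⟩
    exact ⟨(k, m0), hk, fun i j => hz m0 le_rfl i j⟩
  obtain ⟨⟨k, m0⟩, hkm⟩ := pigeon h1
  have hk : 0 < k := by
    by_contra hcon
    apply hkm
    refine Set.Countable.mono ?_ Set.countable_empty
    rintro z ⟨h2, -⟩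
    exact absurd h2 hcon
  refine ⟨d * k, Nat.mul_pos hd hk, ?_⟩
  have hρk := hρ.iter k
  have hD : ∀ i j, ∀ᶠ z in codiscrete ℂ, h i ((σ^[d])^[k] z) * h j z =
      h j ((σ^[d])^[k] z) * h i z := by
    intro i j
    have hDm : Meromorphic fun z => h i ((σ^[d])^[k] z) * h j z - h j ((σ^[d])^[k] z) * h i z :=
      ((hρk.mero (hm i)).mul (hm j)).sub ((hρk.mero (hm j)).mul (hm i))
    have h2 : ∀ᶠ z in codiscrete ℂ, (fun z => h i ((σ^[d])^[k] z) * h j z -
        h j ((σ^[d])^[k] z) * h i z) ((σ^[d])^[m0] z) = 0 := by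
      refine mero_zero ((hρ.iter m0).mero hDm) fun hc => hkm (hc.mono ?_)
      rintro z ⟨-, hz⟩
      change h i ((σ^[d])^[k] ((σ^[d])^[m0] z)) * h j ((σ^[d])^[m0] z) -
        h j ((σ^[d])^[k] ((σ^[d])^[m0] z)) * h i ((σ^[d])^[m0] z) = 0
      rw [← Function.iterate_add_apply, Nat.add_comm k m0, hz i j, sub_self]
    have h3 := (hρ.iter m0).zero hDm h2
    filter_upwards [h3] with z hz
    exact sub_eq_zero.1 hz
  have h2 : ∀ᶠ z in codiscrete ℂ, f (σ^[d * k] z) = f z := by
    have h3 : ∀ᶠ z in codiscrete ℂ, ∀ i j, h i ((σ^[d])^[k] z) * h j z =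
      h j ((σ^[d])^[k] z) * h i z := eventually_all.2 fun i => eventually_all.2 fun j => hD i j
    filter_upwards [h3, hr, (hσ.iter (d * k)).pull hr] with z e1 e2 e3
    refine rep_eq' e3 e2 fun i j => ?_
    rw [Function.iterate_mul]
    exact e1 i j
  exact holMap_ext' (HolMap.comp hf (hσ.iter (d * k)).ent) hf h2

/-- The function `h` satisfies a nontrivial linear functional equation
`∑ P_k(z) h(σ^k(z)) = 0` with polynomial coefficients. -/
def PolEq (σ : ℂ → ℂ) (h : ℂ → ℂ) : Prop :=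
  ∃ (m : ℕ) (P : ℕ → Polynomial ℂ), (∃ k ≤ m, P k ≠ 0) ∧
    ∀ᶠ z in codiscrete ℂ, ∑ k ∈ Finset.range (m + 1), (P k).eval z * h (σ^[k] z) = 0

theorem nce_affine {a b : ℂ} (ha : a ≠ 0) : NCE fun z => a * z + b where
  ent := (differentiable_id.const_mul a).add_const b
  nc := ⟨0, 1, by
    simp only [mul_zero, zero_add, mul_one]
    intro h
    apply ha
    linear_combination -h⟩

theorem per_pol {a b : ℂ} (ha : a ≠ 0)
    (hinf : ∀ k, 0 < k → ∃ z, (fun z => a * z + b)^[k] z ≠ z)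
    {I I' : Ideal (MvPolynomial (Fin (N + 1)) ℂ)} (hR : RatCurvesIn (RingHom.id ℂ) I I')
    {h : Fin (N + 1) → ℂ → ℂ} (hfe : ∀ j, PolEq (fun z => a * z + b) (h j))
    (hpt : ∀ᶠ z in codiscrete ℂ, Pt I I' fun j => h j z) :
    Gnr fun z => Per fun (m : ℕ) (j : Fin (N + 1)) => h j ((fun z => a * z + b)^[m] z) := by
  have hσ := nce_affine (b := b) ha
  set σ : ℂ → ℂ := fun z => a * z + b with hσd
  choose r P hne heq using hfe
  have g1 : Gnr fun z => ∀ j, ∀ m : ℕ, ∑ k ∈ Finset.range (r j + 1),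
      (P j k).eval (σ^[m] z) * h j (σ^[k] (σ^[m] z)) = 0 := Gnr.all fun j => gnr_orbit hσ (heq j)
  have g2 : Gnr fun z => ∀ (m : ℕ) (d : ℕ), 0 < d → σ^[d + m] z ≠ σ^[m] z := by
    refine Gnr.all fun m => Gnr.all fun d => ?_
    by_cases hd : 0 < d
    · have hm : Meromorphic (fun z => σ^[d] z - z) := fun z =>
        (((hσ.iter d).ent.analyticAt z).sub analyticAt_id).meromorphicAt
      have h4 : ∀ᶠ z in codiscrete ℂ, σ^[d] z - z ≠ 0 := by
        refine mero_ne hm fun h0 => ?_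
        obtain ⟨z, hz⟩ := hinf d hd
        apply hz
        exact eq_of_codis (f := σ^[d]) (g := fun z => z) (h0.mono fun y hy => sub_eq_zero.1 hy)
          ((hσ.iter d).ent z).continuousAt continuousAt_id
      refine (Gnr.of_codis ((hσ.iter m).pull h4)).mono fun z hz _ h5 => hz ?_
      rw [sub_eq_zero, ← Function.iterate_add_apply, h5]
    · exact (Gnr.of_codis (Eventually.of_forall fun z => trivial)).mono fun z _ h => absurd h hd
  refine (g2.and (g1.and (gnr_orbit hσ hpt))).mono ?_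
  rintro z ⟨e0, e1, e2⟩
  have hinj : Function.Injective fun m : ℕ => σ^[m] z := by
    intro m n hmn
    by_contra hne
    simp only at hmn
    rcases lt_or_gt_of_ne hne with h1 | h1
    · have h2 := e0 m (n - m) (by omega)
      rw [Nat.sub_add_cancel h1.le] at h2
      exact h2 hmn.symm
    · have h2 := e0 n (m - n) (by omega)
      rw [Nat.sub_add_cancel (le_of_lt h1)] at h2
      exact h2 hmn
  have htow : Tow (ratB (fun m : ℕ => σ^[m] z) hinj) := by
    refine tow_rat hinj (Polynomial.C a * Polynomial.X + Polynomial.C b) (fun m => ?_) ?_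
    · rw [Function.iterate_succ_apply', Polynomial.eval_add, Polynomial.eval_mul,
        Polynomial.eval_C, Polynomial.eval_X, Polynomial.eval_C]
    · refine ⟨2, fun k _ => if k = 0 then a else if k = 1 then -(a + 1) else 1, fun k => ?_,
        ⟨2, le_rfl, ?_⟩, ?_⟩
      · by_cases h0 : k = 0
        · simp only [if_pos h0]
          exact ⟨a, Eventually.of_forall fun _ => rfl⟩
        · by_cases h1 : k = 1
          · simp only [if_neg h0, if_pos h1]
            exact ⟨-(a + 1), Eventually.of_forall fun _ => rfl⟩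
          · simp only [if_neg h0, if_neg h1]
            exact ⟨1, Eventually.of_forall fun _ => rfl⟩
      · intro h
        obtain ⟨m, hm⟩ := h.exists
        simp at hm
      · refine Eventually.of_forall fun m => ?_
        simp only [Finset.sum_range_succ, Finset.sum_range_zero]
        have h1 : σ^[m + 1] z = a * σ^[m] z + b := Function.iterate_succ_apply' σ m z
        have h2 : σ^[m + 2] z = a * σ^[m + 1] z + b := Function.iterate_succ_apply' σ (m + 1) z
        simp only [if_pos, if_neg one_ne_zero, if_neg two_ne_zero, add_zero, zero_add,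
          show ¬ (2 : ℕ) = 1 by norm_num, if_false]
        rw [h2, h1]
        ring
  refine tow_good hR htow _ (Eventually.of_forall fun m => (e2 m).1) (fun j => ?_)
    (Eventually.of_forall fun m => (e2 m).2.1) (Eventually.of_forall fun m => (e2 m).2.2)
  obtain ⟨k0, hk0, hPk0⟩ := hne j
  refine ⟨r j, fun k m => (P j k).eval (σ^[m] z), fun k => ⟨P j k, 1, one_ne_zero,
    Eventually.of_forall fun m => by rw [Polynomial.eval_one, div_one]⟩,
    ⟨k0, hk0, fun h0 => ?_⟩, Eventually.of_forall fun m => ?_⟩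
  · obtain ⟨m, h1, h2⟩ := (h0.and (ev_ne hinj hPk0)).exists
    exact h2 h1
  · rw [← e1 j m]
    refine Finset.sum_congr rfl fun k _ => ?_
    rw [← Function.iterate_add_apply, Nat.add_comm m k]

/-- **Polynomial coefficients.** -/
theorem pol_main {a b : ℂ} (ha : a ≠ 0)
    (hinf : ∀ k, 0 < k → ∃ z, (fun z => a * z + b)^[k] z ≠ z)
    {I I' : Ideal (MvPolynomial (Fin (N + 1)) ℂ)} (hR : RatCurvesIn (RingHom.id ℂ) I I')
    {f : ℂ → ℙ ℂ (Fin (N + 1) → ℂ)} (hf : HolMap f) (hI : ∀ z, InV I (f z))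
    (hI' : ∃ z, ¬ InV I' (f z)) {h : Fin (N + 1) → ℂ → ℂ} (hm : ∀ j, Meromorphic (h j))
    (hfe : ∀ j, PolEq (fun z => a * z + b) (h j))
    (hr : ∀ᶠ z in codiscrete ℂ, Rep (f z) fun j => h j z) :
    (∀ z w, f z = f w) ∨ (a = 1 ∧ ∃ k : ℕ, 0 < k ∧ ∀ z, f (z + k * b) = f z) := by
  have hper := per_pol ha hinf hR hfe (pt_of hf hI hI' hm hr)
  have hσ := nce_affine (b := b) ha
  obtain ⟨k, hk, hinv⟩ := inv_of_per hσ one_pos hf hm hr (by simpa using hper)
  by_cases ha1 : a = 1
  · right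
    refine ⟨ha1, k, hk, fun z => ?_⟩
    have h1 := iter_add b k z
    subst ha1
    simp only [one_mul] at hinv
    rw [← h1, hinv]
  · left
    by_contra hnc
    push Not at hnc
    obtain ⟨z0, w0, hzw⟩ := hnc
    have ha1' : 1 - a ≠ 0 := sub_ne_zero.2 (Ne.symm ha1)
    have hfix : (fun z => a * z + b) (b / (1 - a)) = b / (1 - a) := by
      simp only
      field_simp
      ring
    have h1 : (fun z => a * z + b)^[k] (b / (1 - a)) = b / (1 - a) :=
      Function.iterate_fixed hfix k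
    obtain ⟨r, hr0, hrz⟩ := no_fixed hf hm hr ⟨z0, w0, hzw⟩ (hσ.iter k).ent hinv h1
    obtain ⟨z, hz⟩ := hinf (k * r) (Nat.mul_pos hk hr0)
    apply hz
    rw [Function.iterate_mul]
    exact hrz z

/-! ### dilations -/

open Pool.Agent.TH8.QD (Stable RelCpt AlgQ Dil iter_mul) in
/-- Entire curves given by linear `q`-difference equations over `S` are algebraic over `S`. -/
theorem dil_main {q : ℂ} (hq0 : q ≠ 0) (hq1 : ∀ m : ℕ, 0 < m → q ^ m ≠ 1)
    {S : Subalgebra ℂ (ℂ → ℂ)} (hS : Dil S)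
    {I I' : Ideal (MvPolynomial (Fin (N + 1)) ℂ)} (hR : RatCurvesIn (RingHom.id ℂ) I I')
    {f : ℂ → Fin (N + 1) → ℂ} (hf : ∀ j, Differentiable ℂ (fun z => f z j))
    (hI : ∀ z, ∀ G ∈ I, (∃ d, G.IsHomogeneous d) → eval (f z) G = 0)
    (hI' : ∃ z, ∃ G ∈ I', (∃ d, G.IsHomogeneous d) ∧ eval (f z) G ≠ 0)
    (hfe : ∀ j, Pool.Agent.TH8.QD.FunEq univ (fun z => q * z) S (fun z => f z j))
    {k : Fin (N + 1)} (hk : ∃ z, f z k ≠ 0) (j : Fin (N + 1)) :
    AlgQ univ S (fun z => f z j) (fun z => f z k) := by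
  -- a relatively compact orbit
  have hfan : ∀ j, AnalyticOnNhd ℂ (fun z => f z j) univ := fun j z _ => (hf j).analyticAt z
  have key : ∀ (q : ℂ), q ≠ 0 → (∀ m : ℕ, 0 < m → q ^ m ≠ 1) → ‖q‖ ≤ 1 →
      (∀ j, Pool.Agent.TH8.QD.FunEq univ (fun z => q * z) S (fun z => f z j)) →
      AlgQ univ S (fun z => f z j) (fun z => f z k) := by
    intro q hq0 hq1 hq hfe
    have hinj : Function.Injective fun m : ℕ => q ^ m := by
      intro m n hmn
      simp only at hmn
      by_contra hne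
      rcases lt_or_gt_of_ne hne with h1 | h1
      · apply hq1 (n - m) (by omega)
        have h2 : q ^ m * q ^ (n - m) = q ^ m * 1 := by
          rw [← pow_add, Nat.add_sub_cancel' h1.le, mul_one, hmn]
        exact mul_left_cancel₀ (pow_ne_zero _ hq0) h2
      · apply hq1 (m - n) (by omega)
        have h2 : q ^ n * q ^ (m - n) = q ^ n * 1 := by
          rw [← pow_add, Nat.add_sub_cancel' (le_of_lt h1), mul_one, hmn]
        exact mul_left_cancel₀ (pow_ne_zero _ hq0) h2
    have hz : RelCpt univ (fun m : ℕ => q ^ m) := by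
      refine ⟨hinj, Metric.closedBall 0 1, subset_univ _, isCompact_closedBall _ _, fun m => ?_⟩
      rw [mem_closedBall_zero_iff, norm_pow]
      exact pow_le_one₀ (norm_nonneg _) hq
    obtain ⟨t, ht⟩ := alg_main isPreconnected_univ (σ := fun z => q * z)
      (fun z _ => (differentiable_id.const_mul q).analyticAt z) (mapsTo_univ _ _) (hS.stable hq0) hz
      (fun m => pow_succ' q m) hR hfan (fun z _ => hI z)
      (by
        obtain ⟨z, hz⟩ := hI'
        exact ⟨z, mem_univ _, hz⟩) hfe (k := k)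
      (by
        obtain ⟨z, hz⟩ := hk
        exact ⟨z, mem_univ _, hz⟩)
    obtain ⟨D, c, hc, ⟨i, hi, x, -, hx⟩, hrel⟩ := ht j
    have hqt : q ^ t ≠ 0 := pow_ne_zero _ hq0
    refine ⟨D, fun i z => c i ((q ^ t)⁻¹ * z), fun i => hS.2 _ (inv_ne_zero hqt) _ (hc i),
      ⟨i, hi, q ^ t * x, mem_univ _, ?_⟩, fun z _ => ?_⟩
    · simp only
      rwa [inv_mul_cancel_left₀ hqt]
    · have h1 := hrel ((q ^ t)⁻¹ * z) (mem_univ _)
      simp only [iter_mul] at h1
      rwa [mul_inv_cancel_left₀ hqt] at h1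
  rcases le_total ‖q‖ 1 with h1 | h1
  · exact key q hq0 hq1 h1 hfe
  · refine key q⁻¹ (inv_ne_zero hq0) (fun m hm h2 => hq1 m hm ?_) ?_ fun j =>
      Pool.Agent.TH8.QD.FunEq.inv hq0 (hS.stable (inv_ne_zero hq0)) (hfe j)
    · rw [inv_pow, inv_eq_one] at h2
      exact h2
    · rw [norm_inv]
      exact inv_le_one_of_one_le₀ h1

end Pool.Agent.Y189.DC
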