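import Pool.Agent.Y189.DC.Base
import Pool.Agent.TH143.TW.Tower

/-!
Linear functional equations with coefficients of finite order: reduction to constant coefficients.
-/

set_option autoImplicit false

namespace Pool.Agent.Y189.DC

open Filter Topology Set
open Pool.Agent.TH143.EL
open Pool.Agent.TH143.DE (LinRec)
open Pool.Agent.TH143.TW (EC)

section alg

variable {K : Type} [Field K] [Algebra ℂ K] {F : IntermediateField ℂ K} {s : K →ₐ[ℂ] K}

theorem top_index {h : K} {a : ℕ → K} (m : ℕ) (hne : ∃ k ≤ m, a k ≠ 0)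
    (heq : ∑ k ∈ Finset.range (m + 1), a k * (s ^ k) h = 0) :
    ∃ n, a n ≠ 0 ∧ ∑ k ∈ Finset.range (n + 1), a k * (s ^ k) h = 0 := by
  induction m with
  | zero =>
    obtain ⟨k, hk, hk0⟩ := hne
    obtain rfl : k = 0 := by omega
    exact ⟨0, hk0, heq⟩
  | succ m ih =>
    by_cases h0 : a (m + 1) = 0
    · apply ih
      · obtain ⟨k, hk, hk0⟩ := hne
        refine ⟨k, ?_, hk0⟩
        rcases Nat.lt_or_ge m k with h1 | h1
        · obtain rfl : k = m + 1 := by omega
          exact absurd h0 hk0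
        · exact h1
      · rw [Finset.sum_range_succ, h0, zero_mul, add_zero] at heq
        exact heq
    · exact ⟨m + 1, h0, heq⟩

/-- A linear equation for `s` gives a linear equation for the powers of `s`. -/
theorem dim_red (hs : ∀ x ∈ F, s x ∈ F) {h : K} {m : ℕ} {a : ℕ → K} (ha : ∀ k, a k ∈ F)
    (hne : ∃ k ≤ m, a k ≠ 0) (heq : ∑ k ∈ Finset.range (m + 1), a k * (s ^ k) h = 0) (d : ℕ) :
    ∃ (n : ℕ) (b : ℕ → K), (∀ k, b k ∈ F) ∧ (∃ k ≤ n, b k ≠ 0) ∧
      ∑ k ∈ Finset.range (n + 1), b k * (s ^ (d * k)) h = 0 := by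
  classical
  obtain ⟨n, hn0, hn⟩ := top_index m hne heq
  have hsk : ∀ (k : ℕ) (x : K), x ∈ F → (s ^ k) x ∈ F := by
    intro k
    induction k with
    | zero => exact fun x hx => hx
    | succ k ih =>
      intro x hx
      rw [pow_succ, AlgHom.mul_apply]
      exact ih _ (hs x hx)
  let V : Submodule F K := Submodule.span F (Set.range fun i : Fin n => (s ^ (i : ℕ)) h)
  have hsm : ∀ (x : K) (hx : x ∈ F) (y : K), y ∈ V → x * y ∈ V := by
    intro x hx y hy
    exact V.smul_mem (⟨x, hx⟩ : F) hy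
  have hall : ∀ k, (s ^ k) h ∈ V := by
    intro k
    induction k using Nat.strong_induction_on with
    | _ k ih =>
      rcases Nat.lt_or_ge k n with h1 | h1
      · exact Submodule.subset_span ⟨⟨k, h1⟩, rfl⟩
      · have h2 := congrArg (s ^ (k - n)) hn
        rw [map_zero, map_sum, Finset.sum_range_succ] at h2
        simp only [map_mul] at h2
        have h3 : ∀ j, (s ^ (k - n)) ((s ^ j) h) = (s ^ (k - n + j)) h := by
          intro j
          rw [pow_add, AlgHom.mul_apply]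
        simp only [h3] at h2
        rw [Nat.sub_add_cancel h1] at h2
        have hc0 : (s ^ (k - n)) (a n) ≠ 0 := by
          rwa [Ne, map_eq_zero]
        have h4 : (s ^ k) h = ((s ^ (k - n)) (a n))⁻¹ *
            (-∑ j ∈ Finset.range n, (s ^ (k - n)) (a j) * (s ^ (k - n + j)) h) := by
          rw [eq_inv_mul_iff_mul_eq₀ hc0]
          linear_combination h2
        rw [h4]
        refine hsm _ (F.inv_mem (hsk _ _ (ha n))) _ (V.neg_mem (V.sum_mem fun j hj => ?_))
        exact hsm _ (hsk _ _ (ha j)) _ (ih _ (by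
          have := Finset.mem_range.1 hj
          omega))
  have hfd : FiniteDimensional F V := FiniteDimensional.span_of_finite F (Set.finite_range _)
  set r := Module.finrank F V with hr
  let v : Fin (r + 1) → V := fun k => ⟨(s ^ (d * (k : ℕ))) h, hall _⟩
  have hli : ¬ LinearIndependent F v := by
    intro hcon
    have h1 := hcon.fintype_card_le_finrank
    rw [Fintype.card_fin, ← hr] at h1
    omega
  obtain ⟨g, hg, i, hi⟩ := Fintype.not_linearIndependent_iff.1 hli
  refine ⟨r, fun k => if hk : k < r + 1 then (g ⟨k, hk⟩ : K) else 0, fun k => ?_,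
    ⟨i, Nat.lt_succ_iff.1 i.2, ?_⟩, ?_⟩
  · by_cases hk : k < r + 1
    · simp only [dif_pos hk]
      exact (g ⟨k, hk⟩).2
    · simp only [dif_neg hk]
      exact F.zero_mem
  · simp only [i.2, dif_pos]
    intro h0
    exact hi (Subtype.ext h0)
  · have h1 := congrArg (Subtype.val : V → K) hg
    rw [AddSubmonoidClass.coe_finsetSum] at h1
    rw [Finset.sum_range]
    have h2 : ∀ k : Fin (r + 1), (if hk : (k : ℕ) < r + 1 then (g ⟨k, hk⟩ : K) else 0) *
        (s ^ (d * (k : ℕ))) h = ((g k • v k : V) : K) := by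
      intro k
      rw [dif_pos k.2]
      rfl
    simp only [h2]
    exact h1

end alg

/-! ### the field of meromorphic functions -/

/-- composition with `σ` -/
def cmpS {σ : ℂ → ℂ} (hσ : NCE σ) : MerS →ₐ[ℂ] MerS where
  toFun := fun f => ⟨fun z => f.1 (σ z), hσ.mero f.2⟩
  map_one' := rfl
  map_mul' := fun _ _ => rfl
  map_zero' := rfl
  map_add' := fun _ _ => rfl
  commutes' := fun _ => rfl

/-- composition with `σ` -/
noncomputable def sM {σ : ℂ → ℂ} (hσ : NCE σ) : MK →ₐ[ℂ] MK :=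
  Ideal.Quotient.liftₐ MJ ((Ideal.Quotient.mkₐ ℂ MJ).comp (cmpS hσ)) (by
    intro f hf
    refine (Ideal.Quotient.eq_zero_iff_mem (I := MJ)).2 ?_
    rw [mem_MJ] at hf ⊢
    exact hσ.pull hf)

theorem sM_cl {σ : ℂ → ℂ} (hσ : NCE σ) {f : ℂ → ℂ} (hf : Meromorphic f) :
    sM hσ (cl f hf) = cl (fun z => f (σ z)) (hσ.mero hf) := rfl

theorem sM_pow {σ : ℂ → ℂ} (hσ : NCE σ) {f : ℂ → ℂ} (hf : Meromorphic f) (k : ℕ) :
    (sM hσ ^ k) (cl f hf) = cl (fun z => f (σ^[k] z)) ((hσ.iter k).mero hf) := by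
  induction k generalizing f with
  | zero => rfl
  | succ k ih =>
    rw [pow_succ, AlgHom.mul_apply, sM_cl, ih]
    rw [cl_eq]
    refine Eventually.of_forall fun z => ?_
    rw [Function.iterate_succ_apply']

theorem cl_sum {n : ℕ} {f g : ℕ → ℂ → ℂ} (hf : ∀ k, Meromorphic (f k))
    (hg : ∀ k, Meromorphic (g k)) :
    ∑ k ∈ Finset.range n, cl (f k) (hf k) * cl (g k) (hg k) = 0 ↔
      ∀ᶠ z in codiscrete ℂ, ∑ k ∈ Finset.range n, f k z * g k z = 0 := by
  have hm : ∀ n, Meromorphic fun z => ∑ k ∈ Finset.range n, f k z * g k z := by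
    intro n
    induction n with
    | zero =>
      simp only [Finset.range_zero, Finset.sum_empty]
      exact Meromorphic.const 0
    | succ n ih =>
      simp only [Finset.sum_range_succ]
      exact ih.add ((hf n).mul (hg n))
  have h1 : ∀ n, ∑ k ∈ Finset.range n, cl (f k) (hf k) * cl (g k) (hg k) =
      cl (fun z => ∑ k ∈ Finset.range n, f k z * g k z) (hm n) := by
    intro n
    induction n with
    | zero =>
      refine (Finset.sum_range_zero _).trans ?_
      symm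
      rw [cl_eq_zero]
      exact Eventually.of_forall fun z => by simp
    | succ n ih =>
      rw [Finset.sum_range_succ, ih, cl_mul, cl_add, cl_eq]
      refine Eventually.of_forall fun z => ?_
      rw [Finset.sum_range_succ]
      rfl
  rw [h1, cl_eq_zero]

/-- The function `h` satisfies a nontrivial linear functional equation
`∑ a_k(z) h(σ^k(z)) = 0` whose coefficients are polynomials in the functions in `U`. -/
def FunEq (σ : ℂ → ℂ) (U : Set (ℂ → ℂ)) (h : ℂ → ℂ) : Prop :=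
  ∃ (m : ℕ) (a : ℕ → ℂ → ℂ), (∀ k, a k ∈ Algebra.adjoin ℂ U) ∧
    (∃ k ≤ m, ¬ ∀ᶠ z in codiscrete ℂ, a k z = 0) ∧
    ∀ᶠ z in codiscrete ℂ, ∑ k ∈ Finset.range (m + 1), a k z * h (σ^[k] z) = 0

/-- the field generated by `U` -/
noncomputable def FU (U : Set (ℂ → ℂ)) : IntermediateField ℂ MK :=
  IntermediateField.adjoin ℂ {x : MK | ∃ u ∈ U, ∃ hu : Meromorphic u, x = cl u hu}

theorem cl_FU {σ : ℂ → ℂ} {U : Set (ℂ → ℂ)} (hU : Base σ U) {a : ℂ → ℂ}
    (ha : a ∈ Algebra.adjoin ℂ U) : ∀ h : Meromorphic a, cl a h ∈ FU U := by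
  induction ha using Algebra.adjoin_induction with
  | mem u hu => exact fun h => IntermediateField.subset_adjoin _ _ ⟨u, hu, h, rfl⟩
  | algebraMap c => exact fun h => (FU U).algebraMap_mem c
  | add p q hp' hq' hp hq =>
    intro h
    exact (FU U).add_mem (hp (adj_mero hU.mero hp')) (hq (adj_mero hU.mero hq'))
  | mul p q hp' hq' hp hq =>
    intro h
    exact (FU U).mul_mem (hp (adj_mero hU.mero hp')) (hq (adj_mero hU.mero hq'))

theorem sM_FU {σ : ℂ → ℂ} (hσ : NCE σ) {U : Set (ℂ → ℂ)} (hU : Base σ U) :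
    ∀ x ∈ FU U, sM hσ x ∈ FU U := by
  intro x hx
  induction hx using IntermediateField.adjoin_induction with
  | mem x hx =>
    obtain ⟨u, hu, hm, rfl⟩ := hx
    obtain ⟨p, hp, q, hq, hq0, h⟩ := hU.shift u hu
    have hpm := adj_mero hU.mero hp
    have hqm := adj_mero hU.mero hq
    have h1 : cl q hqm ≠ 0 := fun h0 => hq0 (cl_eq_zero.1 h0)
    have h2 : cl q hqm * sM hσ (cl u hm) = cl p hpm := by
      rw [sM_cl, cl_mul, cl_eq]
      exact h
    have h3 : sM hσ (cl u hm) = cl p hpm / cl q hqm := by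
      rw [eq_div_iff h1, ← h2, mul_comm]
    rw [h3]
    exact (FU U).div_mem (cl_FU hU hp _) (cl_FU hU hq _)
  | algebraMap y =>
    rw [AlgHom.commutes]
    exact (FU U).algebraMap_mem y
  | add y y' _ _ h1 h2 => rw [map_add]; exact (FU U).add_mem h1 h2
  | inv y _ h1 => rw [map_inv₀]; exact (FU U).inv_mem h1
  | mul y y' _ _ h1 h2 => rw [map_mul]; exact (FU U).mul_mem h1 h2

theorem sM_fix {σ : ℂ → ℂ} (hσ : NCE σ) {U : Set (ℂ → ℂ)} {d : ℕ}
    (hinv : ∀ u ∈ U, ∀ᶠ z in codiscrete ℂ, u (σ^[d] z) = u z) :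
    ∀ x ∈ FU U, (sM hσ ^ d) x = x := by
  intro x hx
  induction hx using IntermediateField.adjoin_induction with
  | mem x hx =>
    obtain ⟨u, hu, hm, rfl⟩ := hx
    rw [sM_pow, cl_eq]
    exact hinv u hu
  | algebraMap y => exact AlgHom.commutes _ y
  | add y y' _ _ h1 h2 => rw [map_add, h1, h2]
  | inv y _ h1 => rw [map_inv₀, h1]
  | mul y y' _ _ h1 h2 => rw [map_mul, h1, h2]

/-- If the coefficients are invariant under `σ^d`, then along the generic orbits of `σ^d` we get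
linear recurrences with constant coefficients. -/
theorem red {σ : ℂ → ℂ} (hσ : NCE σ) {U : Set (ℂ → ℂ)} (hU : Base σ U) {d : ℕ}
    (hinv : ∀ u ∈ U, ∀ᶠ z in codiscrete ℂ, u (σ^[d] z) = u z) {h : ℂ → ℂ} (hh : Meromorphic h)
    (hfe : FunEq σ U h) : Gnr fun z => LinRec EC fun m => h ((σ^[d])^[m] z) := by
  obtain ⟨m, a, ha, ⟨k0, hk0, hak0⟩, heq⟩ := hfe
  have ham : ∀ k, Meromorphic (a k) := fun k => adj_mero hU.mero (ha k)
  obtain ⟨n, b, hb, ⟨k1, hk1, hbk1⟩, hbeq⟩ := dim_red (F := FU U) (s := sM hσ) (sM_FU hσ hU)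
    (h := cl h hh) (m := m) (a := fun k => cl (a k) (ham k)) (fun k => cl_FU hU (ha k) _)
    ⟨k0, hk0, fun h0 => hak0 (cl_eq_zero.1 h0)⟩ (by
      simp only [sM_pow]
      rw [cl_sum ham fun k => (hσ.iter k).mero hh]
      exact heq) d
  choose β hβm hβ using fun k => cl_surj (b k)
  have h1 : ∀ k, ∀ᶠ z in codiscrete ℂ, β k (σ^[d] z) = β k z := by
    intro k
    have h2 := sM_fix hσ hinv (b k) (hb k)
    rw [← hβ k, sM_pow, cl_eq] at h2
    exact h2
  have h2 : ∀ᶠ z in codiscrete ℂ, ∑ k ∈ Finset.range (n + 1), β k z * h (σ^[d * k] z) = 0 := by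
    simp only [← hβ, sM_pow] at hbeq
    rwa [cl_sum hβm fun k => (hσ.iter (d * k)).mero hh] at hbeq
  have h3 : ∀ᶠ z in codiscrete ℂ, β k1 z ≠ 0 := by
    refine mero_ne (hβm k1) fun h0 => hbk1 ?_
    rw [← hβ k1]
    exact cl_eq_zero.2 h0
  have hρ := hσ.iter d
  have g1 : Gnr fun z => ∀ k : ℕ, ∀ m : ℕ, β k (σ^[d] ((σ^[d])^[m] z)) = β k ((σ^[d])^[m] z) :=
    Gnr.all fun k => gnr_orbit hρ (h1 k)
  have g2 : Gnr fun z => ∀ m : ℕ,
      ∑ k ∈ Finset.range (n + 1), β k ((σ^[d])^[m] z) * h (σ^[d * k] ((σ^[d])^[m] z)) = 0 :=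
    gnr_orbit hρ h2
  refine ((g1.and g2).and (Gnr.of_codis h3)).mono ?_
  rintro z ⟨⟨e1, e2⟩, e3⟩
  have e4 : ∀ k m : ℕ, β k ((σ^[d])^[m] z) = β k z := by
    intro k m
    induction m with
    | zero => rfl
    | succ m ih => rw [Function.iterate_succ_apply', e1, ih]
  refine ⟨n, fun k _ => β k z, fun k => ⟨β k z, Eventually.of_forall fun _ => rfl⟩,
    ⟨k1, hk1, fun h0 => ?_⟩, Eventually.of_forall fun m => ?_⟩
  · obtain ⟨_, h4⟩ := h0.exists
    exact e3 h4
  · rw [← e2 m]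
    refine Finset.sum_congr rfl fun k _ => ?_
    rw [e4, Function.iterate_mul, ← Function.iterate_add_apply, Nat.add_comm m k]

end Pool.Agent.Y189.DC
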