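import Pool.Agent.Y189.DC.Red
import Pool.Agent.TH143.GE.Tow1

/-!
The sequences of points along the generic orbits are eventually periodic.
-/

set_option autoImplicit false

namespace Pool.Agent.Y189.DC

open Filter Topology Set MvPolynomial
open Pool.Agent.TH143.EL
open Pool.Agent.TH143.DE (LinRec CoefField)
open Pool.Agent.TH143.HE (RatCurvesIn IsPtP)
open Pool.Agent.TH143.TW (Good Per EC KB cK cK_surj cK_zero good_base)
open Pool.Agent.TH143.GE (FinGen cA GenusOneIn good_one ess_of_finGen)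

variable {σ : ℂ → ℂ} {U : Set (ℂ → ℂ)} {w : ℕ → ℂ} {N : ℕ}

theorem cK_adj (_hU : Base σ U) (hB : CoefField (BB U w)) {p : ℂ → ℂ}
    (hp : p ∈ Algebra.adjoin ℂ U) : ∀ h : (fun m => p (w m)) ∈ BB U w,
      cK hB ⟨_, h⟩ ∈ Algebra.adjoin ℂ {x : KB (BB U w) hB | ∃ u ∈ U,
        ∃ h : (fun m => u (w m)) ∈ BB U w, x = cK hB ⟨_, h⟩} := by
  induction hp using Algebra.adjoin_induction with
  | mem u hu => exact fun h => Algebra.subset_adjoin ⟨u, hu, h, rfl⟩
  | algebraMap c => exact fun h => Subalgebra.algebraMap_mem _ c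
  | add p q hp' hq' hp hq =>
    intro h
    exact Subalgebra.add_mem _ (hp (BB_of hp')) (hq (BB_of hq'))
  | mul p q hp' hq' hp hq =>
    intro h
    exact Subalgebra.mul_mem _ (hp (BB_of hp')) (hq (BB_of hq'))

theorem Orb.trdeg (h : Orb U w) (hU : Base σ U) (hB : CoefField (BB U w)) :
    Algebra.trdeg ℂ (KB (BB U w) hB) ≤ 1 := by
  refine trdeg_le {x : KB (BB U w) hB | ∃ u ∈ U,
    ∃ h : (fun m => u (w m)) ∈ BB U w, x = cK hB ⟨_, h⟩} ?_ ?_
  · rintro _ ⟨u, hu, hu', rfl⟩ _ ⟨v, hv, hv', rfl⟩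
    obtain ⟨P, hP0, hP⟩ := hU.dep u (Algebra.subset_adjoin hu) v (Algebra.subset_adjoin hv)
    refine ⟨P, hP0, ?_⟩
    let β : Fin 2 → BB U w := ![⟨_, hu'⟩, ⟨_, hv'⟩]
    have h1 : (![cK hB ⟨_, hu'⟩, cK hB ⟨_, hv'⟩] : Fin 2 → KB (BB U w) hB) =
        fun i => cA hB (β i) := by
      funext i
      fin_cases i <;> rfl
    have h3 : aeval (fun i => cA hB (β i)) P = cA hB (aeval β P) := by
      rw [← comp_aeval]
      rfl
    rw [h1, h3]
    refine (cK_zero hB).2 (Eventually.of_forall fun m => ?_)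
    have h4 : ((aeval β P : BB U w) : ℕ → ℂ) m = eval (fun i => (β i : ℕ → ℂ) m) P := by
      have h5 := MvPolynomial.comp_aeval_apply (f := β)
        ((Pi.evalAlgHom ℂ (fun _ : ℕ => ℂ) m).comp (BB U w).val) P
      change ((aeval β P : BB U w) : ℕ → ℂ) m = _ at h5
      rw [h5]
      rfl
    have h6 : (fun i => (β i : ℕ → ℂ) m) = ![u (w m), v (w m)] := by
      funext i
      fin_cases i <;> rfl
    rw [h4, h6, ← vec2, ← aeval_pt]
    refine adj_val (h.an m) (aeval_mem (fun i => ?_) P) ?_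
    · fin_cases i
      · exact Algebra.subset_adjoin hu
      · exact Algebra.subset_adjoin hv
    · filter_upwards [hP] with z hz
      rw [aeval_pt, vec2, hz]
  · intro y
    obtain ⟨⟨b, hb⟩, rfl⟩ := cK_surj hB y
    obtain ⟨p, hp, q, hq, h1, h2⟩ := hb
    refine ⟨_, cK_adj hU hB hp (BB_of hp), _, cK_adj hU hB hq (BB_of hq), ?_, ?_⟩
    · intro h0
      obtain ⟨m, h3, h4⟩ := (h1.and ((cK_zero hB).1 h0)).exists
      exact h3 h4
    · rw [← map_mul, ← sub_eq_zero, ← map_sub]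
      refine (cK_zero hB).2 ?_
      filter_upwards [h2] with m hm
      change b m * q (w m) - p (w m) = 0
      rw [hm, sub_self]

/-- the conditions on the points of a curve -/
def Pt (I I' : Ideal (MvPolynomial (Fin (N + 1)) ℂ)) (x : Fin (N + 1) → ℂ) : Prop :=
  x ≠ 0 ∧ IsPtP (RingHom.id ℂ) I x ∧ ¬ IsPtP (RingHom.id ℂ) I' x

/-- coefficients of infinite order -/
theorem caseA (hσ : NCE σ) (hU : Base σ U)
    (hinf : ∀ d, 0 < d → ∃ u ∈ U, ¬ ∀ᶠ z in codiscrete ℂ, u (σ^[d] z) = u z)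
    {I I' : Ideal (MvPolynomial (Fin (N + 1)) ℂ)} (hR : RatCurvesIn (RingHom.id ℂ) I I')
    (hE : GenusOneIn (RingHom.id ℂ) I I') {h : Fin (N + 1) → ℂ → ℂ}
    (hfe : ∀ j, FunEq σ U (h j)) (hpt : ∀ᶠ z in codiscrete ℂ, Pt I I' fun j => h j z) :
    Gnr fun z => Per fun (m : ℕ) (j : Fin (N + 1)) => h j (σ^[m] z) := by
  choose r a ha hne heq using hfe
  have g1 : Gnr fun z => ∀ j, ∀ m : ℕ, ∑ k ∈ Finset.range (r j + 1),
      a j k (σ^[m] z) * h j (σ^[k] (σ^[m] z)) = 0 := Gnr.all fun j => gnr_orbit hσ (heq j)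
  refine ((orb_gnr hσ hU hinf).and (g1.and (gnr_orbit hσ hpt))).mono ?_
  rintro z ⟨ho, e1, e2⟩
  have hB := ho.field hU
  have hG := good_one hR hE hB (ess_of_finGen hB (Orb.finGen hU)) (ho.trdeg hU hB)
  refine hG _ (Eventually.of_forall fun m => (e2 m).1) (fun j => ?_)
    (Eventually.of_forall fun m => (e2 m).2.1) (Eventually.of_forall fun m => (e2 m).2.2)
  obtain ⟨k0, hk0, hak0⟩ := hne j
  refine ⟨r j, fun k m => a j k (σ^[m] z), fun k => BB_of (ha j k), ⟨k0, hk0, fun h0 => ?_⟩,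
    Eventually.of_forall fun m => ?_⟩
  · obtain ⟨m, h1, h2⟩ := (h0.and (ho.ne hU (ha j k0) hak0)).exists
    exact h2 h1
  · rw [← e1 j m]
    refine Finset.sum_congr rfl fun k _ => ?_
    rw [← Function.iterate_add_apply, Nat.add_comm m k]

/-- coefficients of finite order -/
theorem caseB (hσ : NCE σ) (hU : Base σ U) {d : ℕ}
    (hinv : ∀ u ∈ U, ∀ᶠ z in codiscrete ℂ, u (σ^[d] z) = u z)
    {I I' : Ideal (MvPolynomial (Fin (N + 1)) ℂ)} (hR : RatCurvesIn (RingHom.id ℂ) I I')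
    {h : Fin (N + 1) → ℂ → ℂ} (hm : ∀ j, Meromorphic (h j)) (hfe : ∀ j, FunEq σ U (h j))
    (hpt : ∀ᶠ z in codiscrete ℂ, Pt I I' fun j => h j z) :
    Gnr fun z => Per fun (m : ℕ) (j : Fin (N + 1)) => h j ((σ^[d])^[m] z) := by
  have g1 : Gnr fun z => ∀ j, LinRec EC fun m => h j ((σ^[d])^[m] z) :=
    Gnr.all fun j => red hσ hU hinv (hm j) (hfe j)
  refine (g1.and (gnr_orbit (hσ.iter d) hpt)).mono ?_
  rintro z ⟨e1, e2⟩
  exact good_base hR _ (Eventually.of_forall fun m => (e2 m).1) e1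
    (Eventually.of_forall fun m => (e2 m).2.1) (Eventually.of_forall fun m => (e2 m).2.2)

/-- The sequences along the generic orbits are eventually periodic. -/
theorem per_main (hσ : NCE σ) (hU : Base σ U) {I I' : Ideal (MvPolynomial (Fin (N + 1)) ℂ)}
    (hR : RatCurvesIn (RingHom.id ℂ) I I') (hE : GenusOneIn (RingHom.id ℂ) I I')
    {h : Fin (N + 1) → ℂ → ℂ} (hm : ∀ j, Meromorphic (h j)) (hfe : ∀ j, FunEq σ U (h j))
    (hpt : ∀ᶠ z in codiscrete ℂ, Pt I I' fun j => h j z) :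
    ∃ d, 0 < d ∧ Gnr fun z => Per fun (m : ℕ) (j : Fin (N + 1)) => h j ((σ^[d])^[m] z) := by
  by_cases hinf : ∀ d, 0 < d → ∃ u ∈ U, ¬ ∀ᶠ z in codiscrete ℂ, u (σ^[d] z) = u z
  · exact ⟨1, one_pos, caseA hσ hU hinf hR hE hfe hpt⟩
  · push Not at hinf
    obtain ⟨d, hd, hinv⟩ := hinf
    exact ⟨d, hd, caseB hσ hU hinv hR hm hfe hpt⟩

end Pool.Agent.Y189.DC
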